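import Mathlib

open Finset
open scoped Pointwise

namespace MinEven

/-- Kneser's addition theorem for the finite abelian group `G`, in the form used here. -/
def KneserFor (G : Type) [AddCommGroup G] [DecidableEq G] : Prop :=
  ∀ A B : Finset G, A.Nonempty → B.Nonempty →
    ∃ H : AddSubgroup G, ∃ Hf : Finset G, (∀ x, x ∈ Hf ↔ x ∈ H) ∧
      (A + B + Hf = A + B) ∧ (A + Hf).card + (B + Hf).card ≤ (A + B).card + Hf.card

/-- counting the elements of `I + B` by residues modulo `n` -/
theorem count_fibres (n : ℕ) (hn0 : 0 < n) (I B : Finset ℤ) (h0 : (0 : ℤ) ∈ I)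
    (hn : (n : ℤ) ∈ I) (Z : Finset (ZMod n)) (W : Finset ℤ)
    (hZ : Z ⊆ (I + B).image (Int.cast : ℤ → ZMod n)) (hW : W ⊆ I + B)
    (hWZ : ∀ w ∈ W, (w : ZMod n) ∉ Z) (hWB : ∀ w ∈ W, ∀ b ∈ B, (w : ZMod n) ≠ (b : ZMod n)) :
    Z.card + B.card + W.card ≤ (I + B).card := by
  classical
  have hs : ∀ r ∈ Z, ∃ c ∈ I + B, (c : ZMod n) = r ∧
      ∀ c' ∈ I + B, (c' : ZMod n) = r → c ≤ c' := by
    intro r hr
    have hr' := hZ hr
    rw [mem_image] at hr'
    obtain ⟨c0, hc0, hc0r⟩ := hr'
    have hne : ((I + B).filter (fun c : ℤ => (c : ZMod n) = r)).Nonempty :=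
      ⟨c0, by rw [mem_filter]; exact ⟨hc0, hc0r⟩⟩
    obtain ⟨c, hc, hmin⟩ := exists_min_image _ (fun c : ℤ => c) hne
    rw [mem_filter] at hc
    refine ⟨c, hc.1, hc.2, ?_⟩
    intro c' hc' hc'r
    exact hmin c' (by rw [mem_filter]; exact ⟨hc', hc'r⟩)
  choose! s hs1 hs2 hs3 using hs
  have hsinj : Set.InjOn s (Z : Set (ZMod n)) := by
    intro a ha b hb hab
    have h1 := hs2 a ha
    have h2 := hs2 b hb
    rw [← h1, ← h2, hab]
  have hc1 : (Z.image s).card = Z.card := card_image_of_injOn hsinj
  have hc2 : (B.image (fun b => b + (n : ℤ))).card = B.card :=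
    card_image_of_injective _ (fun a b h => by simpa using h)
  have hd12 : Disjoint (Z.image s) (B.image (fun b => b + (n : ℤ))) := by
    rw [disjoint_left]
    intro x hx hx'
    rw [mem_image] at hx hx'
    obtain ⟨r, hr, rfl⟩ := hx
    obtain ⟨b, hb, hbe⟩ := hx'
    have hbC : b ∈ I + B := by
      have := add_mem_add h0 hb
      simpa using this
    have hbr : (b : ZMod n) = r := by
      have h1 := hs2 r hr
      rw [← hbe] at h1
      simpa using h1
    have := hs3 r hr b hbC hbr
    have hnpos : (0 : ℤ) < n := by exact_mod_cast hn0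
    linarith
  have hd13 : Disjoint (Z.image s) W := by
    rw [disjoint_left]
    intro x hx hx'
    rw [mem_image] at hx
    obtain ⟨r, hr, rfl⟩ := hx
    apply hWZ _ hx'
    rw [hs2 r hr]
    exact hr
  have hd23 : Disjoint (B.image (fun b => b + (n : ℤ))) W := by
    rw [disjoint_left]
    intro x hx hx'
    rw [mem_image] at hx
    obtain ⟨b, hb, rfl⟩ := hx
    apply hWB _ hx' b hb
    simp
  have hsub : (Z.image s ∪ B.image (fun b => b + (n : ℤ))) ∪ W ⊆ I + B := by
    intro x hx
    rw [mem_union, mem_union, mem_image, mem_image] at hx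
    rcases hx with (⟨r, hr, rfl⟩ | ⟨b, hb, rfl⟩) | hx
    · exact hs1 r hr
    · have h := add_mem_add hn hb
      have he : b + (n : ℤ) = (n : ℤ) + b := add_comm _ _
      rw [he]
      exact h
    · exact hW hx
  have hcard := card_le_card hsub
  rw [card_union_of_disjoint (by
    rw [disjoint_union_left]; exact ⟨hd13, hd23⟩), card_union_of_disjoint hd12, hc1, hc2] at hcard
  exact hcard

/-- core of the Lev-Smeliansky theorem, from Kneser's theorem modulo `n` -/
theorem fls_core (n : ℕ) (hn0 : 0 < n) (kn : KneserFor (ZMod n)) (I B : Finset ℤ)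
    (h0 : (0 : ℤ) ∈ I) (hn : (n : ℤ) ∈ I)
    (hgen : AddSubgroup.closure (I : Set ℤ) = ⊤) (hB : B.Nonempty) :
    B.card + n ≤ (I + B).card ∨
    B.card + (I.image (Int.cast : ℤ → ZMod n)).card + (B.image (Int.cast : ℤ → ZMod n)).card
      ≤ (I + B).card + 1 := by
  classical
  have : NeZero n := ⟨by omega⟩
  set φ : ℤ → ZMod n := Int.cast with hφ
  set Ib := I.image φ with hIb
  set Bb := B.image φ with hBb
  have hIne : Ib.Nonempty := ⟨φ 0, mem_image_of_mem _ h0⟩
  have hBne : Bb.Nonempty := hB.image _
  obtain ⟨H, Hf, hHf, hper, hk⟩ := kn Ib Bb hIne hBne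
  have hX : (I + B).image φ = Ib + Bb := by
    rw [hIb, hBb]
    exact image_add (Int.castAddHom (ZMod n))
  set X := Ib + Bb with hXd
  have h0I : (0 : ZMod n) ∈ Ib := by
    rw [hIb, mem_image]; exact ⟨0, h0, by simp [hφ]⟩
  have hBX : Bb ⊆ X := by
    intro b hb
    have := add_mem_add h0I hb
    simpa using this
  have hBHX : Bb + Hf ⊆ X := by
    have := add_subset_add_right (t := Hf) hBX
    rw [hper] at this
    exact this
  have h0H : (0 : ZMod n) ∈ Hf := (hHf 0).2 H.zero_mem
  by_cases hcase : X = Bb + Hf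
  · left
    -- then `Ib + Hf` has at most `|H|` elements
    have hle : (Ib + Hf).card ≤ Hf.card := by
      rw [← hcase] at hk
      omega
    have hHsub : Hf ⊆ Ib + Hf := by
      intro h hh
      have := add_mem_add h0I hh
      simpa using this
    have hEq : Hf = Ib + Hf := eq_of_subset_of_card_le hHsub hle
    have hIH : ∀ x ∈ I, φ x ∈ H := by
      intro x hx
      rw [← hHf, hEq]
      have := add_mem_add (mem_image_of_mem φ hx) h0H
      simpa using this
    have htop : H = ⊤ := by
      have h1 : AddSubgroup.closure (I : Set ℤ) ≤ H.comap (Int.castAddHom (ZMod n)) := by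
        rw [AddSubgroup.closure_le]
        intro x hx
        exact hIH x hx
      rw [hgen] at h1
      rw [eq_top_iff]
      intro y _
      obtain ⟨z, rfl⟩ := ZMod.intCast_surjective y
      have := h1 (AddSubgroup.mem_top z)
      exact this
    have hHuniv : Hf = univ := by
      ext x; simp [hHf, htop]
    have hXuniv : X = univ := by
      rw [hcase, hHuniv]
      obtain ⟨b, hb⟩ := hBne
      ext x
      constructor
      · intro _; exact mem_univ _
      · intro _
        have := add_mem_add hb (mem_univ (x - b))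
        simpa using this
    have := count_fibres n hn0 I B h0 hn X ∅ (by rw [hX]) (by simp) (by simp) (by simp)
    rw [hXuniv, card_univ, ZMod.card] at this
    simp only [card_empty] at this
    omega
  · right
    -- pick a coset outside `Bb + Hf`
    have hex : ∃ x ∈ X, x ∉ Bb + Hf := by
      by_contra hcon
      push Not at hcon
      exact hcase (Subset.antisymm hcon hBHX)
    obtain ⟨x, hx, hxB⟩ := hex
    have hx' := hx
    rw [hXd, mem_add] at hx'
    obtain ⟨i', hi', b', hb', hib⟩ := hx'
    rw [hIb, mem_image] at hi'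
    rw [hBb, mem_image] at hb'
    obtain ⟨i, hi, rfl⟩ := hi'
    obtain ⟨b, hb, rfl⟩ := hb'
    set xH := ({x} : Finset (ZMod n)) + Hf with hxH
    have hmemxH : ∀ y, y ∈ xH ↔ y - x ∈ H := by
      intro y
      rw [hxH, mem_add]
      constructor
      · rintro ⟨a, ha, h, hh, rfl⟩
        rw [mem_singleton] at ha
        subst ha
        rw [hHf] at hh
        simpa using hh
      · intro h
        exact ⟨x, mem_singleton_self x, y - x, (hHf _).2 h, by ring⟩
    have hxHcard : xH.card = Hf.card := by
      rw [hxH, card_singleton_add]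
    have hxHX : xH ⊆ X := by
      have : xH ⊆ X + Hf := by
        rw [hxH]
        exact add_subset_add_right (singleton_subset_iff.2 hx)
      rwa [hper] at this
    -- the parts of `I` and `B` in the two cosets
    set Ii := I.filter (fun z => φ z - φ i ∈ H) with hIi
    set Bj := B.filter (fun z => φ z - φ b ∈ H) with hBj
    have hIine : Ii.Nonempty := ⟨i, by rw [hIi, mem_filter]; exact ⟨hi, by simp⟩⟩
    have hBjne : Bj.Nonempty := ⟨b, by rw [hBj, mem_filter]; exact ⟨hb, by simp⟩⟩
    have hW : Ii + Bj ⊆ I + B := add_subset_add (filter_subset _ _) (filter_subset _ _)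
    have hWx : ∀ w ∈ Ii + Bj, φ w ∈ xH := by
      intro w hw
      rw [mem_add] at hw
      obtain ⟨u, hu, v, hv, rfl⟩ := hw
      rw [hIi, mem_filter] at hu
      rw [hBj, mem_filter] at hv
      rw [hmemxH, ← hib]
      have := H.add_mem hu.2 hv.2
      have he : φ (u + v) - (φ i + φ b) = (φ u - φ i) + (φ v - φ b) := by
        simp only [hφ]; push_cast; ring
      rw [he]; exact this
    have hWcard : Ii.card + Bj.card ≤ (Ii + Bj).card + 1 := by
      have := cauchy_davenport_add_of_linearOrder_isCancelAdd hIine hBjne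
      omega
    have hcf := count_fibres n hn0 I B h0 hn (X \ xH) (Ii + Bj)
      (by rw [hX]; exact sdiff_subset) hW
      (by
        intro w hw hw2
        rw [mem_sdiff] at hw2
        exact hw2.2 (hWx w hw))
      (by
        intro w hw b2 hb2 he
        apply hxB
        have h1 := hWx w hw
        rw [hmemxH] at h1
        -- `φ w = φ b2`, so `x = φ b2 + (x - φ w)`
        rw [mem_add]
        refine ⟨φ b2, mem_image_of_mem φ hb2, x - φ w, ?_, ?_⟩
        · rw [hHf]
          have := H.neg_mem h1
          simpa using this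
        · have : φ w = φ b2 := he
          rw [← this]; ring)
    rw [card_sdiff_of_subset hxHX, hxHcard] at hcf
    have hHle : Hf.card ≤ X.card := by rw [← hxHcard]; exact card_le_card hxHX
    -- sizes of the remaining parts
    have hpart : ∀ (P : Finset ℤ) (c : ℤ), c ∈ P →
        (P.image φ).card + Hf.card ≤ (P.filter (fun z => φ z - φ c ∈ H)).card
          + (P.image φ + Hf).card := by
      intro P c hc
      set cH := ({φ c} : Finset (ZMod n)) + Hf with hcH
      have hmem : ∀ y, y ∈ cH ↔ y - φ c ∈ H := by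
        intro y
        rw [hcH, mem_add]
        constructor
        · rintro ⟨a, ha, h, hh, rfl⟩
          rw [mem_singleton] at ha
          subst ha
          rw [hHf] at hh
          simpa using hh
        · intro h
          exact ⟨φ c, mem_singleton_self _, y - φ c, (hHf _).2 h, by ring⟩
      have hcHcard : cH.card = Hf.card := by rw [hcH, card_singleton_add]
      have hsub1 : P.image φ ⊆ (P.filter (fun z => φ z - φ c ∈ H)).image φ ∪
          ((P.image φ + Hf) \ cH) := by
        intro y hy
        have hy2 := hy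
        rw [mem_image] at hy2
        obtain ⟨z, hz, rfl⟩ := hy2
        rw [mem_union]
        by_cases h : φ z - φ c ∈ H
        · left
          exact mem_image_of_mem φ (by rw [mem_filter]; exact ⟨hz, h⟩)
        · right
          rw [mem_sdiff, hmem]
          refine ⟨?_, h⟩
          have := add_mem_add hy h0H
          simpa using this
      have h1 := card_le_card hsub1
      have h2 := card_union_le ((P.filter (fun z => φ z - φ c ∈ H)).image φ)
        ((P.image φ + Hf) \ cH)
      have h3 : ((P.filter (fun z => φ z - φ c ∈ H)).image φ).card ≤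
          (P.filter (fun z => φ z - φ c ∈ H)).card := card_image_le
      have hcsub : cH ⊆ P.image φ + Hf := by
        rw [hcH]
        exact add_subset_add_right (singleton_subset_iff.2 (mem_image_of_mem φ hc))
      have h4 : ((P.image φ + Hf) \ cH).card = (P.image φ + Hf).card - Hf.card := by
        rw [card_sdiff_of_subset hcsub, hcHcard]
      have h5 : Hf.card ≤ (P.image φ + Hf).card := by
        rw [← hcHcard]; exact card_le_card hcsub
      omega
    have hI2 := hpart I i hi
    have hB2 := hpart B b hb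
    rw [← hIi, ← hIb] at hI2
    rw [← hBj, ← hBb] at hB2
    omega

/-- Lev-Smeliansky, strict span -/
theorem fls_strict (n : ℕ) (hn0 : 0 < n) (kn : KneserFor (ZMod n)) (I B : Finset ℤ)
    (h0 : (0 : ℤ) ∈ I) (hn : (n : ℤ) ∈ I) (hI : ∀ x ∈ I, 0 ≤ x ∧ x ≤ n)
    (hgen : AddSubgroup.closure (I : Set ℤ) = ⊤) (hB : B.Nonempty)
    (hspan : ∀ x ∈ B, ∀ y ∈ B, y - x < n) :
    B.card + n ≤ (I + B).card ∨ 2 * B.card + I.card ≤ (I + B).card + 2 := by
  classical
  have h1 : (B.image (Int.cast : ℤ → ZMod n)).card = B.card := by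
    apply card_image_of_injOn
    intro x hx y hy hxy
    have hd : (n : ℤ) ∣ y - x := by
      rw [← ZMod.intCast_eq_intCast_iff_dvd_sub]; exact hxy
    obtain ⟨t, ht⟩ := hd
    have h2 := hspan x hx y hy
    have h3 := hspan y hy x hx
    have hnp : (0 : ℤ) < n := by exact_mod_cast hn0
    have ht0 : t = 0 := by
      rcases lt_trichotomy t 0 with h | h | h
      · nlinarith
      · exact h
      · nlinarith
    rw [ht0] at ht
    linarith
  have h2 : I.card ≤ (I.image (Int.cast : ℤ → ZMod n)).card + 1 := by
    have h3 : ((I.erase n).image (Int.cast : ℤ → ZMod n)).card = (I.erase n).card := by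
      apply card_image_of_injOn
      intro x hx y hy hxy
      have hx2 : x ∈ I.erase n := hx
      have hy2 : y ∈ I.erase n := hy
      rw [mem_erase] at hx2 hy2
      have hd : (n : ℤ) ∣ y - x := by
        rw [← ZMod.intCast_eq_intCast_iff_dvd_sub]; exact hxy
      obtain ⟨t, ht⟩ := hd
      have h5 := hI x hx2.2
      have h6 := hI y hy2.2
      have h7 : x < n := lt_of_le_of_ne h5.2 hx2.1
      have h8 : y < n := lt_of_le_of_ne h6.2 hy2.1
      have hnp : (0 : ℤ) < n := by exact_mod_cast hn0
      have ht0 : t = 0 := by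
        rcases lt_trichotomy t 0 with h | h | h
        · nlinarith [h5.1, h6.1]
        · exact h
        · nlinarith [h5.1, h6.1]
      rw [ht0] at ht
      linarith
    have h4 : (I.erase (n : ℤ)).card + 1 = I.card := card_erase_add_one hn
    have h5 := card_le_card (image_subset_image (f := (Int.cast : ℤ → ZMod n))
      (erase_subset (n : ℤ) I))
    omega
  rcases fls_core n hn0 kn I B h0 hn hgen hB with h | h
  · left; exact h
  · right
    omega

/-- Lev-Smeliansky, span at most `n` -/
theorem fls_weak (n : ℕ) (hn0 : 0 < n) (kn : KneserFor (ZMod n)) (I B : Finset ℤ)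
    (h0 : (0 : ℤ) ∈ I) (hn : (n : ℤ) ∈ I) (hI : ∀ x ∈ I, 0 ≤ x ∧ x ≤ n)
    (hgen : AddSubgroup.closure (I : Set ℤ) = ⊤) (hB : B.Nonempty)
    (hspan : ∀ x ∈ B, ∀ y ∈ B, y - x ≤ n) :
    B.card + n ≤ (I + B).card ∨ 2 * B.card + I.card ≤ (I + B).card + 3 := by
  classical
  by_cases hs : ∀ x ∈ B, ∀ y ∈ B, y - x < n
  · rcases fls_strict n hn0 kn I B h0 hn hI hgen hB hs with h | h
    · left; exact h
    · right; omega
  push Not at hs
  obtain ⟨x0, hx0, y0, hy0, hxy0⟩ := hs
  have hB' : ∀ x ∈ B.erase y0, ∀ y ∈ B.erase y0, y - x < n := by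
    intro x hx y hy
    rw [mem_erase] at hx hy
    have h1 := hspan x0 hx0 y hy.2
    have h2 := hspan x hx.2 y0 hy0
    have h3 : y ≤ y0 := by linarith
    have h4 : x0 ≤ x := by linarith
    have h5 : y < y0 := lt_of_le_of_ne h3 hy.1
    have h6 := hspan x0 hx0 y0 hy0
    linarith
  have h1 : ((B.erase y0).image (Int.cast : ℤ → ZMod n)).card = (B.erase y0).card := by
    apply card_image_of_injOn
    intro x hx y hy hxy
    have hd : (n : ℤ) ∣ y - x := by
      rw [← ZMod.intCast_eq_intCast_iff_dvd_sub]; exact hxy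
    obtain ⟨t, ht⟩ := hd
    have h2 := hB' x hx y hy
    have h3 := hB' y hy x hx
    have hnp : (0 : ℤ) < n := by exact_mod_cast hn0
    have ht0 : t = 0 := by
      rcases lt_trichotomy t 0 with h | h | h
      · nlinarith
      · exact h
      · nlinarith
    rw [ht0] at ht
    linarith
  have h5 := card_le_card (image_subset_image (f := (Int.cast : ℤ → ZMod n))
      (erase_subset y0 B))
  have h6 : (B.erase y0).card + 1 = B.card := card_erase_add_one hy0
  have h2 : I.card ≤ (I.image (Int.cast : ℤ → ZMod n)).card + 1 := by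
    have h3 : ((I.erase n).image (Int.cast : ℤ → ZMod n)).card = (I.erase n).card := by
      apply card_image_of_injOn
      intro x hx y hy hxy
      have hx2 : x ∈ I.erase n := hx
      have hy2 : y ∈ I.erase n := hy
      rw [mem_erase] at hx2 hy2
      have hd : (n : ℤ) ∣ y - x := by
        rw [← ZMod.intCast_eq_intCast_iff_dvd_sub]; exact hxy
      obtain ⟨t, ht⟩ := hd
      have h5 := hI x hx2.2
      have h6 := hI y hy2.2
      have h7 : x < n := lt_of_le_of_ne h5.2 hx2.1
      have h8 : y < n := lt_of_le_of_ne h6.2 hy2.1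
      have hnp : (0 : ℤ) < n := by exact_mod_cast hn0
      have ht0 : t = 0 := by
        rcases lt_trichotomy t 0 with h | h | h
        · nlinarith [h5.1, h6.1]
        · exact h
        · nlinarith [h5.1, h6.1]
      rw [ht0] at ht
      linarith
    have h4 : (I.erase (n : ℤ)).card + 1 = I.card := card_erase_add_one hn
    have h5 := card_le_card (image_subset_image (f := (Int.cast : ℤ → ZMod n))
      (erase_subset (n : ℤ) I))
    omega
  rcases fls_core n hn0 kn I B h0 hn hgen hB with h | h
  · left; exact h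
  · right
    omega

/-- a set of integers containing a positive number either generates `ℤ` or lies in `g ℤ`
with `g ≥ 2` -/
theorem closure_top_or (I : Finset ℤ) (n : ℤ) (hn : n ∈ I) (hn0 : 0 < n) :
    AddSubgroup.closure (I : Set ℤ) = ⊤ ∨ ∃ g : ℤ, 2 ≤ g ∧ ∀ x ∈ I, g ∣ x := by
  obtain ⟨g, hg⟩ := Int.subgroup_cyclic (AddSubgroup.closure (I : Set ℤ))
  have hmem : ∀ x ∈ I, g ∣ x := by
    intro x hx
    have h1 : x ∈ AddSubgroup.closure (I : Set ℤ) := AddSubgroup.subset_closure hx
    rw [hg, AddSubgroup.mem_closure_singleton] at h1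
    obtain ⟨k, hk⟩ := h1
    exact ⟨k, by rw [← hk, smul_eq_mul, mul_comm]⟩
  by_cases h2 : 2 ≤ |g|
  · right
    exact ⟨|g|, h2, fun x hx => (abs_dvd g x).2 (hmem x hx)⟩
  · left
    have hg0 : g ≠ 0 := by
      rintro rfl
      have := hmem n hn
      rw [zero_dvd_iff] at this
      omega
    have habs : |g| = 1 := by
      have := abs_pos.2 hg0
      omega
    rw [hg, eq_top_iff]
    intro x _
    rw [AddSubgroup.mem_closure_singleton]
    rcases (abs_eq (by norm_num : (0 : ℤ) ≤ 1)).1 habs with h | h
    · exact ⟨x, by rw [h]; simp⟩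
    · exact ⟨-x, by rw [h]; simp⟩

end MinEven
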