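import Mathlib
import Pool.Agent.H71M.FLS

open Finset
open scoped Pointwise

namespace MinEven

/-- number of elements of `S` in `[a, b)` -/
def cnt (S : Finset ℤ) (a b : ℤ) : ℕ := (S.filter (fun x => a ≤ x ∧ x < b)).card

theorem mem_part {S : Finset ℤ} {a b x : ℤ} :
    x ∈ S.filter (fun x => a ≤ x ∧ x < b) ↔ x ∈ S ∧ a ≤ x ∧ x < b := by
  rw [mem_filter]

theorem cnt_add (S : Finset ℤ) (a b c : ℤ) (hab : a ≤ b) (hbc : b ≤ c) :
    cnt S a c = cnt S a b + cnt S b c := by
  classical
  unfold cnt
  rw [← card_union_of_disjoint]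
  · congr 1
    ext x
    rw [mem_union, mem_filter, mem_filter, mem_filter]
    constructor
    · rintro ⟨h1, h2, h3⟩
      by_cases h : x < b
      · left; exact ⟨h1, h2, h⟩
      · right; exact ⟨h1, by omega, h3⟩
    · rintro (⟨h1, h2, h3⟩ | ⟨h1, h2, h3⟩)
      · exact ⟨h1, h2, by omega⟩
      · exact ⟨h1, by omega, h3⟩
  · rw [disjoint_left]
    intro x hx hx'
    rw [mem_filter] at hx hx'
    omega

theorem cnt_le (S : Finset ℤ) (a b : ℤ) (hab : a ≤ b) : (cnt S a b : ℤ) ≤ b - a := by
  classical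
  have h : S.filter (fun x => a ≤ x ∧ x < b) ⊆ Finset.Ico a b := by
    intro x hx
    rw [mem_filter] at hx
    rw [Finset.mem_Ico]
    exact hx.2
  have h2 := card_le_card h
  rw [Int.card_Ico] at h2
  unfold cnt
  omega

/-- two disjoint subsets of an interval -/
theorem card_add_le_of_disjoint (A B : Finset ℤ) (a b : ℤ) (hab : a ≤ b)
    (hA : ∀ x ∈ A, a ≤ x ∧ x < b) (hB : ∀ x ∈ B, a ≤ x ∧ x < b)
    (hAB : ∀ x ∈ A, x ∉ B) : (A.card : ℤ) + B.card ≤ b - a := by
  classical
  have hd : Disjoint A B := by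
    rw [disjoint_left]; exact fun x hx => hAB x hx
  have h : A ∪ B ⊆ Finset.Ico a b := by
    intro x hx
    rw [mem_union] at hx
    rw [Finset.mem_Ico]
    rcases hx with hx | hx
    · exact hA x hx
    · exact hB x hx
  have h2 := card_le_card h
  rw [card_union_of_disjoint hd, Int.card_Ico] at h2
  omega

/-- translation by `s` with `s ∈ S` -/
theorem cnt_translate (S : Finset ℤ) (hsf : ∀ x ∈ S, ∀ y ∈ S, x + y ∉ S) (s : ℤ) (hs : s ∈ S)
    (a t : ℤ) (ht : 0 ≤ t) :
    (cnt S a (a + t) : ℤ) + cnt S (a + s) (a + s + t) ≤ t := by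
  classical
  have h := card_add_le_of_disjoint (S.filter (fun x => a ≤ x ∧ x < a + t))
    ((S.filter (fun x => a + s ≤ x ∧ x < a + s + t)).image (fun x => x - s)) a (a + t)
    (by omega) (by intro x hx; rw [mem_filter] at hx; exact hx.2)
    (by
      intro x hx
      rw [mem_image] at hx
      obtain ⟨y, hy, rfl⟩ := hx
      rw [mem_filter] at hy
      omega)
    (by
      intro x hx hx'
      rw [mem_image] at hx'
      obtain ⟨y, hy, rfl⟩ := hx'
      rw [mem_filter] at hy hx
      have := hsf (y - s) hx.1 s hs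
      apply this
      have he : y - s + s = y := by ring
      rw [he]; exact hy.1)
  rw [card_image_of_injective _ (fun x y h => by simpa using h)] at h
  unfold cnt
  omega

/-- reflection in `M ∈ S` -/
theorem cnt_reflect (S : Finset ℤ) (hsf : ∀ x ∈ S, ∀ y ∈ S, x + y ∉ S) (M : ℤ) (hM : M ∈ S)
    (a b : ℤ) (hab : a ≤ b) :
    (cnt S a b : ℤ) + cnt S (M - b + 1) (M - a + 1) ≤ b - a := by
  classical
  have h := card_add_le_of_disjoint (S.filter (fun x => a ≤ x ∧ x < b))
    ((S.filter (fun x => M - b + 1 ≤ x ∧ x < M - a + 1)).image (fun x => M - x)) a b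
    (by omega) (by intro x hx; rw [mem_filter] at hx; exact hx.2)
    (by
      intro x hx
      rw [mem_image] at hx
      obtain ⟨y, hy, rfl⟩ := hx
      rw [mem_filter] at hy
      omega)
    (by
      intro x hx hx'
      rw [mem_image] at hx'
      obtain ⟨y, hy, rfl⟩ := hx'
      rw [mem_filter] at hy hx
      have := hsf (M - y) hx.1 y hy.1
      apply this
      have he : M - y + y = M := by ring
      rw [he]; exact hM)
  rw [card_image_of_injective _ (fun x y h => by simpa using h)] at h
  unfold cnt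
  omega

/-- sets inside a residue class -/
theorem class_card_le (A : Finset ℤ) (a b c g : ℤ) (hg : 0 < g)
    (hA : ∀ x ∈ A, a ≤ x ∧ x < b) (hc : ∀ x ∈ A, g ∣ x - c) (hab : a ≤ b) :
    g * A.card ≤ b - a + g - 1 := by
  classical
  have hinj : Set.InjOn (fun x => (x - a) / g) (A : Set ℤ) := by
    intro x hx y hy hxy
    have h1 := hc x hx
    have h2 := hc y hy
    have h3 : g ∣ (x - a) - (y - a) := by
      have := dvd_sub h1 h2
      have he : x - c - (y - c) = (x - a) - (y - a) := by ring
      rwa [he] at this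
    have h4 : (x - a) % g = (y - a) % g :=
      Int.emod_eq_emod_iff_emod_sub_eq_zero.2 (Int.emod_eq_zero_of_dvd h3)
    have h5 : (x - a) / g = (y - a) / g := hxy
    have h6 := Int.emod_add_mul_ediv (x - a) g
    have h7 := Int.emod_add_mul_ediv (y - a) g
    rw [h4, h5] at h6
    linarith
  by_cases hab' : a = b
  · have hAe : A = ∅ := by
      rw [eq_empty_iff_forall_notMem]
      intro x hx
      have := hA x hx
      omega
    rw [hAe]
    simp only [card_empty]
    push_cast
    omega
  have hsub : A.image (fun x => (x - a) / g) ⊆ Finset.Ico 0 ((b - 1 - a) / g + 1) := by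
    intro y hy
    rw [mem_image] at hy
    obtain ⟨x, hx, rfl⟩ := hy
    have := hA x hx
    rw [Finset.mem_Ico]
    constructor
    · exact Int.ediv_nonneg (by omega) (by omega)
    · have h1 : (x - a) / g ≤ (b - 1 - a) / g := Int.ediv_le_ediv hg (by omega)
      omega
  have h1 := card_le_card hsub
  rw [card_image_of_injOn hinj, Int.card_Ico] at h1
  have h2 : 0 ≤ (b - 1 - a) / g := Int.ediv_nonneg (by omega) (by omega)
  have h3 : (A.card : ℤ) ≤ (b - 1 - a) / g + 1 := by omega
  have h4 : g * ((b - 1 - a) / g) ≤ b - 1 - a := Int.mul_ediv_self_le (by omega)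
  have h5 : g * (A.card : ℤ) ≤ g * ((b - 1 - a) / g + 1) :=
    mul_le_mul_of_nonneg_left h3 (by omega)
  have h6 : g * ((b - 1 - a) / g + 1) = g * ((b - 1 - a) / g) + g := by ring
  omega

theorem card_eq_cnt' (S : Finset ℤ) (p M : ℤ) (hmin : ∀ x ∈ S, p ≤ x) (hmax : ∀ x ∈ S, x < M) :
    S.card = cnt S p M := by
  unfold cnt
  congr 1
  ext x
  rw [mem_filter]
  constructor
  · intro h
    exact ⟨h, hmin x h, hmax x h⟩
  · exact fun h => h.1

end MinEven
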