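import Mathlib
import Pool.Agent.H71M.Basic

open Finset
open scoped Pointwise

namespace MinEven

/-- A hypothetical counterexample with maximum `6 p - 1 - d`, `5 ≤ d < p`. -/
structure Cfg (S : Finset ℤ) (p d : ℤ) : Prop where
  hd : 5 ≤ d
  hdp : d < p
  sf : ∀ x ∈ S, ∀ y ∈ S, x + y ∉ S
  pS : p ∈ S
  MS : 6 * p - 1 - d ∈ S
  lo : ∀ x ∈ S, p ≤ x
  hi : ∀ x ∈ S, x ≤ 6 * p - 1 - d
  big : 2 * p + 1 ≤ (S.card : ℤ)

/-- `I = S ∩ [p, 2p) - p` -/
noncomputable def sI (S : Finset ℤ) (p : ℤ) : Finset ℤ := (Finset.Ico 0 p).filter (fun w => p + w ∈ S)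

/-- `K = S ∩ [2p, 3p - d) - 2p` -/
noncomputable def sK (S : Finset ℤ) (p d : ℤ) : Finset ℤ :=
  (Finset.Ico 0 (p - d)).filter (fun w => 2 * p + w ∈ S)

/-- `R = S ∩ [3p - d, 5p - d) - 3p` -/
noncomputable def sR (S : Finset ℤ) (p d : ℤ) : Finset ℤ :=
  (Finset.Ico (-d) (2 * p - d)).filter (fun w => 3 * p + w ∈ S)

/-- `C = S ∩ [5p - d, 6p - d) - 4p` -/
noncomputable def sC (S : Finset ℤ) (p d : ℤ) : Finset ℤ :=
  (Finset.Ico (p - d) (2 * p - d)).filter (fun w => 4 * p + w ∈ S)

/-- uncovered positions -/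
noncomputable def sD (S : Finset ℤ) (p d : ℤ) : Finset ℤ :=
  (Finset.Ico 0 (2 * p - d)).filter (fun w => w ∉ sK S p d ∧ w ∉ sR S p d ∧ w ∉ sC S p d)

theorem mem_sI {S : Finset ℤ} {p w : ℤ} : w ∈ sI S p ↔ (0 ≤ w ∧ w < p) ∧ p + w ∈ S := by
  unfold sI; rw [mem_filter, Finset.mem_Ico]

theorem mem_sK {S : Finset ℤ} {p d w : ℤ} :
    w ∈ sK S p d ↔ (0 ≤ w ∧ w < p - d) ∧ 2 * p + w ∈ S := by
  unfold sK; rw [mem_filter, Finset.mem_Ico]

theorem mem_sR {S : Finset ℤ} {p d w : ℤ} :
    w ∈ sR S p d ↔ (-d ≤ w ∧ w < 2 * p - d) ∧ 3 * p + w ∈ S := by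
  unfold sR; rw [mem_filter, Finset.mem_Ico]

theorem mem_sC {S : Finset ℤ} {p d w : ℤ} :
    w ∈ sC S p d ↔ (p - d ≤ w ∧ w < 2 * p - d) ∧ 4 * p + w ∈ S := by
  unfold sC; rw [mem_filter, Finset.mem_Ico]

theorem mem_sD {S : Finset ℤ} {p d w : ℤ} :
    w ∈ sD S p d ↔ (0 ≤ w ∧ w < 2 * p - d) ∧ w ∉ sK S p d ∧ w ∉ sR S p d ∧ w ∉ sC S p d := by
  unfold sD; rw [mem_filter, Finset.mem_Ico]

/-- shifted count -/
theorem cnt_shift (S : Finset ℤ) (s a b : ℤ) :
    cnt S (s + a) (s + b) = ((Finset.Ico a b).filter (fun w => s + w ∈ S)).card := by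
  classical
  unfold cnt
  have h : S.filter (fun x => s + a ≤ x ∧ x < s + b) =
      ((Finset.Ico a b).filter (fun w => s + w ∈ S)).image (fun w => s + w) := by
    ext x
    rw [mem_filter, mem_image]
    constructor
    · rintro ⟨h1, h2, h3⟩
      refine ⟨x - s, ?_, by ring⟩
      rw [mem_filter, Finset.mem_Ico]
      have he : s + (x - s) = x := by ring
      rw [he]
      exact ⟨⟨by omega, by omega⟩, h1⟩
    · rintro ⟨w, hw, rfl⟩
      rw [mem_filter, Finset.mem_Ico] at hw
      exact ⟨hw.2, by omega, by omega⟩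
  rw [h, card_image_of_injective _ (fun a b h => by simpa using h)]

namespace Cfg

variable {S : Finset ℤ} {p d : ℤ}

theorem KI (h : Cfg S p d) {w i : ℤ} (hw : w ∈ sK S p d) (hi : i ∈ sI S p) :
    w + i ∉ sR S p d := by
  rw [mem_sK] at hw
  rw [mem_sI] at hi
  intro hR
  rw [mem_sR] at hR
  have := h.sf _ hw.2 _ hi.2
  apply this
  have he : 2 * p + w + (p + i) = 3 * p + (w + i) := by ring
  rw [he]; exact hR.2

theorem CI (h : Cfg S p d) {w i : ℤ} (hw : w ∈ sC S p d) (hi : i ∈ sI S p) :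
    w - i ∉ sR S p d := by
  rw [mem_sC] at hw
  rw [mem_sI] at hi
  intro hR
  rw [mem_sR] at hR
  have := h.sf _ hR.2 _ hi.2
  apply this
  have he : 3 * p + (w - i) + (p + i) = 4 * p + w := by ring
  rw [he]; exact hw.2

theorem zero_I (h : Cfg S p d) : (0 : ℤ) ∈ sI S p := by
  rw [mem_sI]
  have := h.hd
  have := h.hdp
  refine ⟨⟨by omega, by omega⟩, ?_⟩
  rw [add_zero]; exact h.pS

theorem KR (h : Cfg S p d) {w : ℤ} (hw : w ∈ sK S p d) : w ∉ sR S p d := by
  have := h.KI hw h.zero_I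
  rwa [add_zero] at this

theorem CR (h : Cfg S p d) {w : ℤ} (hw : w ∈ sC S p d) : w ∉ sR S p d := by
  have := h.CI hw h.zero_I
  rwa [sub_zero] at this

theorem IK (h : Cfg S p d) {i : ℤ} (hi : i ∈ sI S p) : i ∉ sK S p d := by
  intro hK
  rw [mem_sK] at hK
  rw [mem_sI] at hi
  apply h.sf _ hi.2 _ h.pS
  have he : p + i + p = 2 * p + i := by ring
  rw [he]; exact hK.2

/-- the maximum of `S` is in `C` -/
theorem top_C (h : Cfg S p d) : 2 * p - 1 - d ∈ sC S p d := by
  rw [mem_sC]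
  have := h.hd
  have := h.hdp
  refine ⟨⟨by omega, by omega⟩, ?_⟩
  have he : 4 * p + (2 * p - 1 - d) = 6 * p - 1 - d := by ring
  rw [he]; exact h.MS

/-- reflection between `K` and `R` -/
theorem reflKR (h : Cfg S p d) {w : ℤ} (hw : w ∈ sK S p d) : p - d - 1 - w ∉ sR S p d := by
  intro hR
  rw [mem_sK] at hw
  rw [mem_sR] at hR
  apply h.sf _ hw.2 _ hR.2
  have he : 2 * p + w + (3 * p + (p - d - 1 - w)) = 6 * p - 1 - d := by ring
  rw [he]; exact h.MS

/-- reflection inside the negative part of `R` -/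
theorem reflRR (h : Cfg S p d) {w : ℤ} (hw : w ∈ sR S p d) : -d - 1 - w ∉ sR S p d := by
  intro hR
  rw [mem_sR] at hR hw
  apply h.sf _ hw.2 _ hR.2
  have he : 3 * p + w + (3 * p + (-d - 1 - w)) = 6 * p - 1 - d := by ring
  rw [he]; exact h.MS

/-- `S.card = |I| + |K| + |R| + |C|` -/
theorem card_split (h : Cfg S p d) :
    (S.card : ℤ) = (sI S p).card + (sK S p d).card + (sR S p d).card + (sC S p d).card := by
  have hd := h.hd
  have hdp := h.hdp
  have h0 := card_eq_cnt' S p (6 * p - d) h.lo (fun x hx => by have := h.hi x hx; omega)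
  have h1 := cnt_add S p (2 * p) (6 * p - d) (by omega) (by omega)
  have h2 := cnt_add S (2 * p) (3 * p - d) (6 * p - d) (by omega) (by omega)
  have h3 := cnt_add S (3 * p - d) (5 * p - d) (6 * p - d) (by omega) (by omega)
  have e1 := cnt_shift S p 0 p
  have e2 := cnt_shift S (2 * p) 0 (p - d)
  have e3 := cnt_shift S (3 * p) (-d) (2 * p - d)
  have e4 := cnt_shift S (4 * p) (p - d) (2 * p - d)
  rw [show p + 0 = p by ring, show p + p = 2 * p by ring] at e1
  rw [show 2 * p + 0 = 2 * p by ring, show 2 * p + (p - d) = 3 * p - d by ring] at e2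
  rw [show 3 * p + -d = 3 * p - d by ring, show 3 * p + (2 * p - d) = 5 * p - d by ring] at e3
  rw [show 4 * p + (p - d) = 5 * p - d by ring, show 4 * p + (2 * p - d) = 6 * p - d by ring] at e4
  have f1 : (sI S p).card = cnt S p (2 * p) := e1.symm
  have f2 : (sK S p d).card = cnt S (2 * p) (3 * p - d) := e2.symm
  have f3 : (sR S p d).card = cnt S (3 * p - d) (5 * p - d) := e3.symm
  have f4 : (sC S p d).card = cnt S (5 * p - d) (6 * p - d) := e4.symm
  rw [f1, f2, f3, f4]
  omega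

/-- the covering identity -/
theorem cover (h : Cfg S p d) :
    ((sK S p d).card : ℤ) + ((sR S p d).filter (fun w => 0 ≤ w)).card + (sC S p d).card
      + (sD S p d).card = 2 * p - d := by
  classical
  have hd := h.hd
  have hdp := h.hdp
  have hU : Finset.Ico 0 (2 * p - d) = ((sK S p d ∪ (sR S p d).filter (fun w => 0 ≤ w)) ∪ sC S p d)
      ∪ sD S p d := by
    ext w
    rw [mem_union, mem_union, mem_union, mem_filter, Finset.mem_Ico, mem_sD]
    constructor
    · intro hw
      by_cases h1 : w ∈ sK S p d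
      · exact Or.inl (Or.inl (Or.inl h1))
      · by_cases h2 : w ∈ sR S p d
        · exact Or.inl (Or.inl (Or.inr ⟨h2, hw.1⟩))
        · by_cases h3 : w ∈ sC S p d
          · exact Or.inl (Or.inr h3)
          · exact Or.inr ⟨hw, h1, h2, h3⟩
    · rintro (((h1 | h1) | h1) | h1)
      · rw [mem_sK] at h1; omega
      · have h2 := h1.1
        rw [mem_sR] at h2; omega
      · rw [mem_sC] at h1; omega
      · exact h1.1
  have hc := congrArg Finset.card hU
  rw [Int.card_Ico, card_union_of_disjoint, card_union_of_disjoint, card_union_of_disjoint] at hc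
  · omega
  · rw [disjoint_left]
    intro w h1 h2
    exact h.KR h1 (mem_filter.1 h2).1
  · rw [disjoint_left]
    intro w h1 h2
    rw [mem_union] at h1
    rcases h1 with h1 | h1
    · rw [mem_sK] at h1
      rw [mem_sC] at h2
      omega
    · exact h.CR h2 (mem_filter.1 h1).1
  · rw [disjoint_left]
    intro w h1 h2
    rw [mem_sD] at h2
    rw [mem_union, mem_union] at h1
    rcases h1 with (h1 | h1) | h1
    · exact h2.2.1 h1
    · exact h2.2.2.1 (mem_filter.1 h1).1
    · exact h2.2.2.2 h1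

/-- the basic budget: `|Def| + B ≤ |I| - 1 - d + ...` -/
theorem budget0 (h : Cfg S p d) :
    ((sD S p d).card : ℤ) + d + 1 ≤ (sI S p).card
      + ((sR S p d).filter (fun w => w < 0)).card := by
  classical
  have h1 := h.card_split
  have h2 := h.cover
  have h3 := h.big
  have h4 := card_filter_add_card_filter_not (s := sR S p d) (fun w => 0 ≤ w)
  have h5 : ((sR S p d).filter (fun w => ¬ 0 ≤ w)) = (sR S p d).filter (fun w => w < 0) := by
    apply filter_congr
    intro x _
    omega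
  rw [h5] at h4
  omega

/-- first budget inequality `|Def| ≤ |I| - 1 - ⌈d/2⌉` -/
theorem budget1 (h : Cfg S p d) :
    2 * ((sD S p d).card : ℤ) + d + 2 ≤ 2 * (sI S p).card := by
  classical
  have h0 := h.budget0
  have h1 := card_add_le_of_disjoint ((sR S p d).filter (fun w => w < 0))
    (((sR S p d).filter (fun w => w < 0)).image (fun w => -d - 1 - w)) (-d) 0
    (by have := h.hd; omega)
    (by
      intro x hx
      rw [mem_filter, mem_sR] at hx
      omega)
    (by
      intro x hx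
      rw [mem_image] at hx
      obtain ⟨y, hy, rfl⟩ := hx
      rw [mem_filter, mem_sR] at hy
      omega)
    (by
      intro x hx hx'
      rw [mem_image] at hx'
      obtain ⟨y, hy, rfl⟩ := hx'
      exact h.reflRR (mem_filter.1 hy).1 (mem_filter.1 hx).1)
  rw [card_image_of_injective _ (fun a b h => by simpa using h)] at h1
  omega

/-- second budget inequality: for a set `B` of negative positions avoiding `R` -/
theorem budget2 (h : Cfg S p d) (B : Finset ℤ) (hB : ∀ x ∈ B, -d ≤ x ∧ x < 0)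
    (hBR : ∀ x ∈ B, x ∉ sR S p d) :
    ((sD S p d).card : ℤ) + B.card + 1 ≤ (sI S p).card := by
  classical
  have h0 := h.budget0
  have h1 := card_add_le_of_disjoint ((sR S p d).filter (fun w => w < 0)) B (-d) 0
    (by have := h.hd; omega)
    (by
      intro x hx
      rw [mem_filter, mem_sR] at hx
      omega) hB
    (by
      intro x hx hx'
      exact hBR x hx' (mem_filter.1 hx).1)
  omega

end Cfg

end MinEven
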