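import Mathlib
import Pool.Agent.H96.MEGenA

open Finset
open scoped Pointwise

namespace MinEven

namespace Cfg

variable {S : Finset ℤ} {p d : ℤ}

theorem add_cases (h : Cfg S p d) {w i : ℤ} (hw : w ∈ sK S p d) (hi : i ∈ sI S p) :
    w + i ∈ sK S p d ∨ w + i ∈ sC S p d ∨ w + i ∈ sD S p d := by
  have hR := h.KI hw hi
  by_cases h1 : w + i ∈ sK S p d
  · exact Or.inl h1
  by_cases h2 : w + i ∈ sC S p d
  · exact Or.inr (Or.inl h2)
  refine Or.inr (Or.inr ?_)
  rw [mem_sD]
  rw [mem_sK] at hw
  rw [mem_sI] at hi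
  exact ⟨⟨by omega, by omega⟩, h1, hR, h2⟩

theorem sub_cases (h : Cfg S p d) {w i : ℤ} (hw : w ∈ sC S p d) (hi : i ∈ sI S p)
    (h0 : 0 ≤ w - i) :
    w - i ∈ sK S p d ∨ w - i ∈ sC S p d ∨ w - i ∈ sD S p d := by
  have hR := h.CI hw hi
  by_cases h1 : w - i ∈ sK S p d
  · exact Or.inl h1
  by_cases h2 : w - i ∈ sC S p d
  · exact Or.inr (Or.inl h2)
  refine Or.inr (Or.inr ?_)
  rw [mem_sD]
  rw [mem_sC] at hw
  rw [mem_sI] at hi
  exact ⟨⟨by omega, by omega⟩, h1, hR, h2⟩

end Cfg

theorem card_add_ge (A B : Finset ℤ) (hA : A.Nonempty) (hB : B.Nonempty) :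
    (A.card : ℤ) + B.card ≤ (A + B).card + 1 := by
  have := cauchy_davenport_add_of_linearOrder_isCancelAdd hA hB
  omega

theorem card_sub_ge (A B : Finset ℤ) (hA : A.Nonempty) (hB : B.Nonempty) :
    (A.card : ℤ) + B.card ≤ (A - B).card + 1 := by
  have h := card_add_ge A (-B) hA hB.neg
  rw [← sub_eq_add_neg, card_neg] at h
  exact h

theorem Gen.card_le {I : Finset ℤ} {D lam : ℤ} (g : Gen I D lam) : (I.card : ℤ) ≤ lam + 1 := by
  have h := class_card_le I 0 (D * lam + 1) 0 D g.D0
    (fun x hx => by have := g.rng x hx; omega)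
    (fun x hx => by rw [sub_zero]; exact g.div x hx)
    (by have := mul_pos g.D0 g.lam0; omega)
  have h2 : D * (I.card : ℤ) ≤ D * (lam + 1) := by
    have : D * (lam + 1) = D * lam + D := by ring
    omega
  exact le_of_mul_le_mul_left h2 g.D0

theorem Gen.ell {S : Finset ℤ} {p D lam : ℤ} (g : Gen (sI S p) D lam) : D * lam < p := by
  have := g.top
  rw [mem_sI] at this
  exact this.1.2

/-- number of negative elements of `C_c - I` in one class -/
theorem neg_count {S : Finset ℤ} {p d D lam : ℤ} (h : Cfg S p d) (g : Gen (sI S p) D lam)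
    (hD : 3 ≤ D ∨ (D = 2 ∧ 2 ∣ p)) (c : ℤ) (E : Finset ℤ) (hE : E ⊆ cl D c (sC S p d)) :
    2 * (((E - sI S p).filter (fun x => x < 0)).card : ℤ) + 1 ≤ d := by
  classical
  have hd := h.hd
  have hl := g.ell
  have hD0 := g.D0
  set B := (E - sI S p).filter (fun x => x < 0) with hB
  by_cases hBe : B = ∅
  · rw [hBe]; simp only [card_empty]; push_cast; omega
  have hBne : B.Nonempty := nonempty_iff_ne_empty.2 hBe
  have hBpos : (1 : ℤ) ≤ B.card := by
    have := card_pos.2 hBne; omega
  have hrange : ∀ x ∈ B, p - d - D * lam ≤ x ∧ x < 0 := by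
    intro x hx
    rw [hB, mem_filter, mem_sub] at hx
    obtain ⟨⟨w, hw, i, hi, rfl⟩, h2⟩ := hx
    have h3 := (mem_cl.1 (hE hw)).1
    rw [mem_sC] at h3
    have h4 := g.rng i hi
    omega
  have hcl : ∀ x ∈ B, D ∣ x - c := by
    intro x hx
    rw [hB, mem_filter, mem_sub] at hx
    obtain ⟨⟨w, hw, i, hi, rfl⟩, h2⟩ := hx
    have h3 := (mem_cl.1 (hE hw)).2
    have h4 := g.div i hi
    have he : w - i - c = (w - c) - i := by ring
    rw [he]; exact dvd_sub h3 h4
  obtain ⟨x0, hx0⟩ := hBne
  have hx0r := hrange x0 hx0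
  have hcount := class_card_le B (p - d - D * lam) 0 c D hD0 hrange hcl (by omega)
  rcases hD with hD | ⟨hD, hp2⟩
  · have h3 : 3 * ((B.card : ℤ) - 1) ≤ D * ((B.card : ℤ) - 1) :=
      mul_le_mul_of_nonneg_right hD (by omega)
    have h4 : D * ((B.card : ℤ) - 1) = D * B.card - D := by ring
    omega
  · subst hD
    obtain ⟨r, hr⟩ := hp2
    omega

/-- classification of the residue classes, `D ≥ 2` -/
theorem classify {S : Finset ℤ} {p d D lam : ℤ} (h : Cfg S p d) (g : Gen (sI S p) D lam)
    (hD : 3 ≤ D ∨ (D = 2 ∧ 2 ∣ p)) (c : ℤ) :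
    (cl D c (sC S p d) = ∅ ∧ cl D c (sK S p d) = ∅) ∨
    ((cl D c (sC' S p d D lam)).Nonempty ∧ (cl D c (sK' S p d D lam)).Nonempty ∧
      ((cl D c (sC' S p d D lam)).card : ℤ) + lam
        ≤ (cl D c (sC' S p d D lam) - sI S p).card ∧
      ((cl D c (sK' S p d D lam)).card : ℤ) + lam
        ≤ (cl D c (sK' S p d D lam) + sI S p).card) := by
  classical
  have hd := h.hd
  have hdp := h.hdp
  have hl := g.ell
  have hb1 := h.budget1
  have hIne : (sI S p).Nonempty := ⟨0, h.zero_I⟩
  -- sums of class elements stay in the class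
  have hclsub : ∀ E : Finset ℤ, (∀ x ∈ E, D ∣ x - c) → ∀ x ∈ E - sI S p, D ∣ x - c := by
    intro E hE x hx
    rw [mem_sub] at hx
    obtain ⟨w, hw, i, hi, rfl⟩ := hx
    have he : w - i - c = (w - c) - i := by ring
    rw [he]; exact dvd_sub (hE w hw) (g.div i hi)
  have hcladd : ∀ E : Finset ℤ, (∀ x ∈ E, D ∣ x - c) → ∀ x ∈ E + sI S p, D ∣ x - c := by
    intro E hE x hx
    rw [mem_add] at hx
    obtain ⟨w, hw, i, hi, rfl⟩ := hx
    have he : w + i - c = (w - c) + i := by ring
    rw [he]; exact dvd_add (hE w hw) (g.div i hi)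
  -- if `K_c` is nonempty then so is `C_c`
  have hKC : (cl D c (sK S p d)).Nonempty → (cl D c (sC S p d)).Nonempty := by
    intro hK
    by_contra hC
    rw [not_nonempty_iff_eq_empty] at hC
    have hsub : cl D c (sK S p d) + sI S p ⊆ cl D c (sK S p d) ∪ sD S p d := by
      intro x hx
      have hxc := hcladd (cl D c (sK S p d)) (fun y hy => (mem_cl.1 hy).2) x hx
      rw [mem_add] at hx
      obtain ⟨w, hw, i, hi, rfl⟩ := hx
      rw [mem_union]
      rcases h.add_cases (mem_cl.1 hw).1 hi with h1 | h1 | h1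
      · left; exact mem_cl.2 ⟨h1, hxc⟩
      · exfalso
        have : w + i ∈ cl D c (sC S p d) := mem_cl.2 ⟨h1, hxc⟩
        rw [hC] at this
        exact absurd this (notMem_empty _)
      · right; exact h1
    have h1 := card_le_card hsub
    have h2 := card_union_le (cl D c (sK S p d)) (sD S p d)
    have h3 := card_add_ge _ _ hK hIne
    omega
  -- `C_c` nonempty gives `C'_c` nonempty
  have hCC' : (cl D c (sC S p d)).Nonempty → (cl D c (sC' S p d D lam)).Nonempty := by
    intro hC
    by_contra hC'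
    rw [not_nonempty_iff_eq_empty] at hC'
    have hhigh : ∀ w ∈ cl D c (sC S p d), p - d + D * lam ≤ w := by
      intro w hw
      by_contra hlt
      push Not at hlt
      have : w ∈ cl D c (sC' S p d D lam) := by
        rw [mem_cl] at hw ⊢
        refine ⟨?_, hw.2⟩
        unfold sC'
        rw [mem_filter]
        exact ⟨hw.1, hlt⟩
      rw [hC'] at this
      exact absurd this (notMem_empty _)
    have hsub : cl D c (sC S p d) - sI S p ⊆ cl D c (sC S p d) ∪ sD S p d := by
      intro x hx
      have hxc := hclsub (cl D c (sC S p d)) (fun y hy => (mem_cl.1 hy).2) x hx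
      rw [mem_sub] at hx
      obtain ⟨w, hw, i, hi, rfl⟩ := hx
      have h1 := hhigh w hw
      have h2 := g.rng i hi
      rw [mem_union]
      rcases h.sub_cases (mem_cl.1 hw).1 hi (by omega) with h3 | h3 | h3
      · exfalso
        rw [mem_sK] at h3
        omega
      · left; exact mem_cl.2 ⟨h3, hxc⟩
      · right; exact h3
    have h1 := card_le_card hsub
    have h2 := card_union_le (cl D c (sC S p d)) (sD S p d)
    have h3 := card_sub_ge _ _ hC hIne
    omega
  -- `C_c` nonempty gives `K_c` nonempty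
  have hCK : (cl D c (sC S p d)).Nonempty → (cl D c (sK S p d)).Nonempty := by
    intro hC
    by_contra hK
    rw [not_nonempty_iff_eq_empty] at hK
    have hneg := neg_count h g hD c (cl D c (sC S p d)) (Subset.refl _)
    have hsub : cl D c (sC S p d) - sI S p ⊆ (cl D c (sC S p d) ∪ sD S p d) ∪
        (cl D c (sC S p d) - sI S p).filter (fun x => x < 0) := by
      intro x hx
      have hxc := hclsub (cl D c (sC S p d)) (fun y hy => (mem_cl.1 hy).2) x hx
      rw [mem_union, mem_union]
      by_cases hx0 : x < 0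
      · right; rw [mem_filter]; exact ⟨hx, hx0⟩
      left
      rw [mem_sub] at hx
      obtain ⟨w, hw, i, hi, rfl⟩ := hx
      rcases h.sub_cases (mem_cl.1 hw).1 hi (by omega) with h3 | h3 | h3
      · exfalso
        have : w - i ∈ cl D c (sK S p d) := mem_cl.2 ⟨h3, hxc⟩
        rw [hK] at this
        exact absurd this (notMem_empty _)
      · left; exact mem_cl.2 ⟨h3, hxc⟩
      · right; exact h3
    have h1 := card_le_card hsub
    have h2 := card_union_le (cl D c (sC S p d) ∪ sD S p d)
      ((cl D c (sC S p d) - sI S p).filter (fun x => x < 0))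
    have h2' := card_union_le (cl D c (sC S p d)) (sD S p d)
    have h3 := card_sub_ge _ _ hC hIne
    omega
  -- `K_c` nonempty gives `K'_c` nonempty
  have hKK' : (cl D c (sK S p d)).Nonempty → (cl D c (sK' S p d D lam)).Nonempty := by
    intro hK
    by_contra hK'
    rw [not_nonempty_iff_eq_empty] at hK'
    have hlow : ∀ w ∈ cl D c (sK S p d), w < p - d - D * lam := by
      intro w hw
      by_contra hlt
      push Not at hlt
      have : w ∈ cl D c (sK' S p d D lam) := by
        rw [mem_cl] at hw ⊢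
        refine ⟨?_, hw.2⟩
        unfold sK'
        rw [mem_filter]
        exact ⟨hw.1, hlt⟩
      rw [hK'] at this
      exact absurd this (notMem_empty _)
    have hsub : cl D c (sK S p d) + sI S p ⊆ cl D c (sK S p d) ∪ sD S p d := by
      intro x hx
      have hxc := hcladd (cl D c (sK S p d)) (fun y hy => (mem_cl.1 hy).2) x hx
      rw [mem_add] at hx
      obtain ⟨w, hw, i, hi, rfl⟩ := hx
      have h1 := hlow w hw
      have h2 := g.rng i hi
      rw [mem_union]
      rcases h.add_cases (mem_cl.1 hw).1 hi with h3 | h3 | h3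
      · left; exact mem_cl.2 ⟨h3, hxc⟩
      · exfalso
        rw [mem_sC] at h3
        omega
      · right; exact h3
    have h1 := card_le_card hsub
    have h2 := card_union_le (cl D c (sK S p d)) (sD S p d)
    have h3 := card_add_ge _ _ hK hIne
    omega
  by_cases hC : (cl D c (sC S p d)).Nonempty
  swap
  · left
    have hC0 : cl D c (sC S p d) = ∅ := not_nonempty_iff_eq_empty.1 hC
    refine ⟨hC0, ?_⟩
    by_contra hK
    exact hC (hKC (nonempty_iff_ne_empty.2 hK))
  right
  have hC' := hCC' hC
  have hK' := hKK' (hCK hC)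
  set E := cl D c (sC' S p d D lam) with hE
  set F := cl D c (sK' S p d D lam) with hF
  have hEmem : ∀ w ∈ E, w ∈ sC S p d ∧ w < p - d + D * lam ∧ D ∣ w - c := by
    intro w hw
    rw [hE, mem_cl] at hw
    unfold sC' at hw
    rw [mem_filter] at hw
    exact ⟨hw.1.1, hw.1.2, hw.2⟩
  have hFmem : ∀ w ∈ F, w ∈ sK S p d ∧ p - d - D * lam ≤ w ∧ D ∣ w - c := by
    intro w hw
    rw [hF, mem_cl] at hw
    unfold sK' at hw
    rw [mem_filter] at hw
    exact ⟨hw.1.1, hw.1.2, hw.2⟩
  have hEin : ∀ w, w ∈ sC S p d → w < p - d + D * lam → D ∣ w - c → w ∈ E := by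
    intro w h1 h2 h3
    rw [hE, mem_cl]
    unfold sC'
    rw [mem_filter]
    exact ⟨⟨h1, h2⟩, h3⟩
  have hFin : ∀ w, w ∈ sK S p d → p - d - D * lam ≤ w → D ∣ w - c → w ∈ F := by
    intro w h1 h2 h3
    rw [hF, mem_cl]
    unfold sK'
    rw [mem_filter]
    exact ⟨⟨h1, h2⟩, h3⟩
  -- the two FLS alternatives
  have hflsC := g.fls_sub E hC'
    (by
      intro x hx y hy
      have he : y - x = (y - c) - (x - c) := by ring
      rw [he]; exact dvd_sub (hEmem y hy).2.2 (hEmem x hx).2.2)
    (by
      intro x hx y hy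
      have h1 := hEmem x hx
      have h2 := hEmem y hy
      rw [mem_sC] at h1 h2
      omega)
  have hflsK := g.fls_add F hK'
    (by
      intro x hx y hy
      have he : y - x = (y - c) - (x - c) := by ring
      rw [he]; exact dvd_sub (hFmem y hy).2.2 (hFmem x hx).2.2)
    (by
      intro x hx y hy
      have h1 := hFmem x hx
      have h2 := hFmem y hy
      rw [mem_sK] at h1 h2
      omega)
  -- upper bounds
  have hneg := neg_count h g hD c E (by
    intro w hw
    rw [mem_cl]
    exact ⟨(hEmem w hw).1, (hEmem w hw).2.2⟩)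
  have hupC : ((E - sI S p).card : ℤ) ≤ F.card + E.card + (sD S p d).card +
      ((E - sI S p).filter (fun x => x < 0)).card := by
    have hsub : E - sI S p ⊆ ((F ∪ E) ∪ sD S p d) ∪
        (E - sI S p).filter (fun x => x < 0) := by
      intro x hx
      have hxc := hclsub E (fun y hy => (hEmem y hy).2.2) x hx
      rw [mem_union, mem_union, mem_union]
      by_cases hx0 : x < 0
      · right; rw [mem_filter]; exact ⟨hx, hx0⟩
      left
      rw [mem_sub] at hx
      obtain ⟨w, hw, i, hi, rfl⟩ := hx
      have h1 := hEmem w hw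
      have h2 := g.rng i hi
      have h5 := h1.1
      rw [mem_sC] at h5
      rcases h.sub_cases h1.1 hi (by omega) with h3 | h3 | h3
      · left; left
        exact hFin _ h3 (by omega) hxc
      · left; right
        exact hEin _ h3 (by omega) hxc
      · right; exact h3
    have h1 := card_le_card hsub
    have h2 := card_union_le ((F ∪ E) ∪ sD S p d) ((E - sI S p).filter (fun x => x < 0))
    have h3 := card_union_le (F ∪ E) (sD S p d)
    have h4 := card_union_le F E
    omega
  have hupK : ((F + sI S p).card : ℤ) ≤ F.card + E.card + (sD S p d).card := by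
    have hsub : F + sI S p ⊆ (F ∪ E) ∪ sD S p d := by
      intro x hx
      have hxc := hcladd F (fun y hy => (hFmem y hy).2.2) x hx
      rw [mem_union, mem_union]
      rw [mem_add] at hx
      obtain ⟨w, hw, i, hi, rfl⟩ := hx
      have h1 := hFmem w hw
      have h2 := g.rng i hi
      have h5 := h1.1
      rw [mem_sK] at h5
      rcases h.add_cases h1.1 hi with h3 | h3 | h3
      · left; left
        exact hFin _ h3 (by omega) hxc
      · left; right
        exact hEin _ h3 (by omega) hxc
      · right; exact h3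
    have h1 := card_le_card hsub
    have h3 := card_union_le (F ∪ E) (sD S p d)
    have h4 := card_union_le F E
    omega
  have hgc := g.card_le
  refine ⟨hC', hK', ?_, ?_⟩
  · by_contra hcon
    rcases hflsC with h1 | h1
    · exact hcon h1
    · rcases hflsK with h2 | h2 <;> omega
  · by_contra hcon
    rcases hflsK with h1 | h1
    · exact hcon h1
    · rcases hflsC with h2 | h2 <;> omega

end MinEven
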