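import Mathlib
import Pool.Agent.H71M.Classify

open Finset
open scoped Pointwise

namespace MinEven

/-- positions of the class of `c` in `[a, b)` -/
noncomputable def pos (D c a b : ℤ) : Finset ℤ := (Finset.Ico a b).filter (fun x => D ∣ x - c)

theorem mem_pos {D c a b x : ℤ} : x ∈ pos D c a b ↔ (a ≤ x ∧ x < b) ∧ D ∣ x - c := by
  unfold pos; rw [mem_filter, Finset.mem_Ico]

theorem pos_upper (D c a b : ℤ) (hD : 0 < D) (hab : a ≤ b) :
    D * ((pos D c a b).card : ℤ) ≤ b - a + D - 1 :=
  class_card_le (pos D c a b) a b c D hD (fun _ hx => (mem_pos.1 hx).1)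
    (fun _ hx => (mem_pos.1 hx).2) hab

theorem pos_lower (D c a b : ℤ) (hD : 0 < D) (hab : a ≤ b) :
    b - a - (D - 1) ≤ D * ((pos D c a b).card : ℤ) := by
  classical
  set m := (b - a) / D with hm
  have hm0 : 0 ≤ m := Int.ediv_nonneg (by omega) (by omega)
  have hmul : D * m ≤ b - a := Int.mul_ediv_self_le (by omega)
  have hmod := Int.emod_add_mul_ediv (b - a) D
  have hmod2 := Int.emod_lt_of_pos (b - a) hD
  rw [← hm] at hmod
  have hinj : ((Finset.Ico 0 m).image (fun j => a + D * j + (c - a) % D)).card = (Finset.Ico 0 m).card := by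
    apply card_image_of_injective
    intro x y hxy
    have : D * x = D * y := by
      have h1 : a + D * x + (c - a) % D = a + D * y + (c - a) % D := hxy
      omega
    exact mul_left_cancel₀ (by omega) this
  have hsub : (Finset.Ico 0 m).image (fun j => a + D * j + (c - a) % D) ⊆ pos D c a b := by
    intro x hx
    rw [mem_image] at hx
    obtain ⟨j, hj, rfl⟩ := hx
    rw [Finset.mem_Ico] at hj
    rw [mem_pos]
    have h1 := Int.emod_nonneg (c - a) (show D ≠ 0 by omega)
    have h2 := Int.emod_lt_of_pos (c - a) hD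
    have h3 : D * (j + 1) ≤ D * m := mul_le_mul_of_nonneg_left (by omega) (by omega)
    have h4 : D * (j + 1) = D * j + D := by ring
    have h5 : 0 ≤ D * j := mul_nonneg (by omega) hj.1
    refine ⟨⟨by omega, by omega⟩, ?_⟩
    have h6 := Int.emod_add_mul_ediv (c - a) D
    refine ⟨j - (c - a) / D, ?_⟩
    have : D * (j - (c - a) / D) = D * j - D * ((c - a) / D) := by ring
    rw [this]
    omega
  have hc := card_le_card hsub
  rw [hinj, Int.card_Ico] at hc
  have h7 : D * m ≤ D * ((pos D c a b).card : ℤ) :=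
    mul_le_mul_of_nonneg_left (by omega) (by omega)
  omega

/-- The situation `D ∤ p` with the classification of residue classes modulo `D`. The class of
`c` is called active when `C` meets it. -/
structure Typ (S : Finset ℤ) (p d D lam : ℤ) : Prop where
  cfg : Cfg S p d
  gen : Gen (sI S p) D lam
  D3 : 3 ≤ D
  ndvd : ¬ D ∣ p
  C0 : ∀ w ∈ sC S p d, ¬ D ∣ w
  KC : ∀ w ∈ sK S p d, ∃ w' ∈ sC S p d, D ∣ w' - w
  dense : ∀ c : ℤ, (∃ w ∈ sC S p d, D ∣ w - c) → ∃ w0 ∈ sK S p d, D ∣ w0 - c ∧
    (∀ w ∈ sK S p d, D ∣ w - c → w0 ≤ w) ∧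
    lam ≤ ((cl D c (sC' S p d D lam)).card : ℤ) + ((cl D c (sD S p d)).filter (fun w => w0 ≤ w)).card

namespace Typ

variable {S : Finset ℤ} {p d D lam : ℤ}

theorem def_bound (t : Typ S p d D lam) : 2 * ((sD S p d).card : ℤ) + d ≤ 2 * lam := by
  have h1 := t.cfg.budget1
  have h2 := t.gen.card_le
  omega

/-- numeric contradiction -/
theorem num1 (t : Typ S p d D lam) (N : ℤ) (hN : p - d - (D - 1) ≤ D * N)
    (hle : N ≤ (sD S p d).card) : False := by
  have h1 := t.def_bound
  have h2 := t.gen.ell
  have h3 := t.D3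
  have h4 := t.cfg.hd
  have h5 : D * (2 * N + d) ≤ D * (2 * lam) :=
    mul_le_mul_of_nonneg_left (by omega) (by omega)
  have h6 : 0 < (D - 2) * (d - 2) := mul_pos (by omega) (by omega)
  nlinarith

/-- UNIT D2 -/
theorem shift (t : Typ S p d D lam) (c : ℤ)
    (hc : ¬ ∃ w ∈ sC S p d, D ∣ w - c) : ∃ w ∈ sC S p d, D ∣ w - (c - p) := by
  classical
  by_contra hcp
  have hd := t.cfg.hd
  have hdp := t.cfg.hdp
  have hinj : (pos D (c - p) 0 (p - d)).card ≤ (sD S p d).card := by
    apply card_le_card_of_injOn (fun x => if x ∈ sD S p d then x else x + p)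
    · intro x hx
      have hx' : x ∈ pos D (c - p) 0 (p - d) := hx
      rw [mem_pos] at hx'
      by_cases hxD : x ∈ sD S p d
      · simp only [if_pos hxD]
        exact hxD
      · simp only [if_neg hxD]
        have hxK : x ∉ sK S p d := by
          intro hK
          obtain ⟨w', hw', hd'⟩ := t.KC x hK
          apply hcp
          refine ⟨w', hw', ?_⟩
          have he : w' - (c - p) = (w' - x) + (x - (c - p)) := by ring
          rw [he]; exact dvd_add hd' hx'.2
        have hxC : x ∉ sC S p d := by
          intro hC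
          rw [mem_sC] at hC
          omega
        have hxR : x ∈ sR S p d := by
          by_contra hR
          apply hxD
          rw [mem_sD]
          exact ⟨⟨by omega, by omega⟩, hxK, hR, hxC⟩
        show x + p ∈ sD S p d
        rw [mem_sD]
        refine ⟨⟨by omega, by omega⟩, ?_, ?_, ?_⟩
        · intro hK
          rw [mem_sK] at hK
          omega
        · intro hR
          rw [mem_sR] at hR hxR
          apply t.cfg.sf _ hxR.2 _ t.cfg.pS
          have he : 3 * p + x + p = 3 * p + (x + p) := by ring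
          rw [he]; exact hR.2
        · intro hC
          apply hc
          refine ⟨x + p, hC, ?_⟩
          have he : x + p - c = x - (c - p) := by ring
          rw [he]; exact hx'.2
    · intro x hx y hy hxy
      have hx' : x ∈ pos D (c - p) 0 (p - d) := hx
      have hy' : y ∈ pos D (c - p) 0 (p - d) := hy
      rw [mem_pos] at hx' hy'
      simp only at hxy
      split_ifs at hxy with h1 h2 h2 <;> omega
  have h1 := pos_lower D (c - p) 0 (p - d) (by have := t.D3; omega) (by omega)
  exact t.num1 ((pos D (c - p) 0 (p - d)).card : ℤ) (by omega) (by exact_mod_cast hinj)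

/-- absent positions of an active class -/
theorem absent (t : Typ S p d D lam) (f w0 : ℤ) (hw0 : w0 ∈ sK S p d) (hw0f : D ∣ w0 - f)
    (hmin : ∀ w ∈ sK S p d, D ∣ w - f → w0 ≤ w)
    (hlam : lam ≤ ((cl D f (sC' S p d D lam)).card : ℤ) +
      ((cl D f (sD S p d)).filter (fun w => w0 ≤ w)).card)
    (T : Finset ℤ) (hT0 : ∀ x ∈ T, 0 ≤ x ∧ x < p - d + D * lam) (hTf : ∀ x ∈ T, D ∣ x - f)
    (hTS : ∀ x ∈ T, 4 * p + x ∉ S) (hTR : ∀ x ∈ T, x < w0 → x ∉ sR S p d) :
    (T.card : ℤ) ≤ ((cl D f (sD S p d)).filter (fun w => w < w0)).card +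
      ((cl D (f + p) (sD S p d)).filter (fun w => p - d ≤ w)).card +
      ((cl D 0 (sD S p d)).filter (fun w => w < p - d)).card +
      ((cl D f (sD S p d)).filter (fun w => w0 ≤ w)).card := by
  classical
  have hd := t.cfg.hd
  have hdp := t.cfg.hdp
  have hl := t.gen.ell
  have hw0' := hw0
  rw [mem_sK] at hw0'
  set T1 := T.filter (fun x => x < w0) with hT1
  set T2 := T.filter (fun x => w0 ≤ x ∧ x < p - d) with hT2
  set T3 := T.filter (fun x => p - d ≤ x) with hT3
  have hTsub : T ⊆ (T1 ∪ T2) ∪ T3 := by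
    intro x hx
    rw [mem_union, mem_union, hT1, hT2, hT3, mem_filter, mem_filter, mem_filter]
    by_cases h1 : x < w0
    · left; left; exact ⟨hx, h1⟩
    · by_cases h2 : x < p - d
      · left; right; exact ⟨hx, by omega, h2⟩
      · right; exact ⟨hx, by omega⟩
  have hcT := card_le_card hTsub
  have hu1 := card_union_le (T1 ∪ T2) T3
  have hu2 := card_union_le T1 T2
  -- T1
  have hc1 : T1.card ≤ ((cl D f (sD S p d)).filter (fun w => w < w0)).card := by
    apply card_le_card
    intro x hx
    rw [hT1, mem_filter] at hx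
    rw [mem_filter, mem_cl, mem_sD]
    have h0 := hT0 x hx.1
    refine ⟨⟨⟨⟨by omega, by omega⟩, ?_, hTR x hx.1 hx.2, ?_⟩, hTf x hx.1⟩, hx.2⟩
    · intro hK
      have := hmin x hK (hTf x hx.1)
      omega
    · intro hC
      rw [mem_sC] at hC
      omega
  -- T2
  have hc2 : T2.card ≤ ((cl D (f + p) (sD S p d)).filter (fun w => p - d ≤ w)).card +
      ((cl D 0 (sD S p d)).filter (fun w => w < p - d)).card := by
    have hmap : T2.card ≤ (((cl D (f + p) (sD S p d)).filter (fun w => p - d ≤ w)) ∪
        ((cl D 0 (sD S p d)).filter (fun w => w < p - d))).card := by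
      apply card_le_card_of_injOn (fun x => if x + p ∈ sD S p d then x + p else x - w0)
      · intro x hx
        have hx' : x ∈ T2 := hx
        rw [hT2, mem_filter] at hx'
        have hxS := hTS x hx'.1
        have hxf := hTf x hx'.1
        have hx0 := hT0 x hx'.1
        show (if x + p ∈ sD S p d then x + p else x - w0) ∈ _
        by_cases hxD : x + p ∈ sD S p d
        · rw [if_pos hxD, Finset.mem_coe, mem_union]
          left
          rw [mem_filter, mem_cl]
          refine ⟨⟨hxD, ?_⟩, by omega⟩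
          have he : x + p - (f + p) = x - f := by ring
          rw [he]; exact hxf
        · rw [if_neg hxD, Finset.mem_coe, mem_union]
          right
          -- `x + p ∈ C`
          have hxC : x + p ∈ sC S p d := by
            by_contra hC
            apply hxD
            rw [mem_sD]
            refine ⟨⟨by omega, by omega⟩, ?_, ?_, hC⟩
            · intro hK
              rw [mem_sK] at hK
              omega
            · intro hR
              rw [mem_sR] at hR
              apply hxS
              have he : 4 * p + x = 3 * p + (x + p) := by ring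
              rw [he]; exact hR.2
          rw [mem_sC] at hxC
          have hcl0 : D ∣ x - w0 - 0 := by
            have he : x - w0 - 0 = (x - f) - (w0 - f) := by ring
            rw [he]; exact dvd_sub hxf hw0f
          have hnotS : 3 * p + (x - w0) ∉ S := by
            intro hS
            apply t.cfg.sf _ hS _ hw0'.2
            have he : 3 * p + (x - w0) + (2 * p + w0) = 4 * p + (x + p) := by ring
            rw [he]; exact hxC.2
          rw [mem_filter, mem_cl, mem_sD]
          refine ⟨⟨⟨⟨by omega, by omega⟩, ?_, ?_, ?_⟩, hcl0⟩, by omega⟩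
          · intro hK
            obtain ⟨w', hw', hdw⟩ := t.KC _ hK
            apply t.C0 w' hw'
            have he : w' = (w' - (x - w0)) + (x - w0 - 0) := by ring
            rw [he]; exact dvd_add hdw hcl0
          · intro hR
            rw [mem_sR] at hR
            exact hnotS hR.2
          · intro hC
            rw [mem_sC] at hC
            omega
      · intro x hx y hy hxy
        have hx' : x ∈ T2 := hx
        have hy' : y ∈ T2 := hy
        rw [hT2, mem_filter] at hx' hy'
        have hx0 := hT0 x hx'.1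
        have hy0 := hT0 y hy'.1
        simp only at hxy
        split_ifs at hxy with h1 h2 h2 <;> omega
    exact hmap.trans (card_union_le _ _)
  -- T3
  have hc3 : (T3.card : ℤ) ≤ ((cl D f (sD S p d)).filter (fun w => w0 ≤ w)).card := by
    have hdisj : Disjoint T3 (cl D f (sC' S p d D lam)) := by
      rw [disjoint_left]
      intro x hx hx'
      rw [hT3, mem_filter] at hx
      rw [mem_cl] at hx'
      unfold sC' at hx'
      rw [mem_filter, mem_sC] at hx'
      exact hTS x hx.1 hx'.1.1.2
    have hsub : T3 ∪ cl D f (sC' S p d D lam) ⊆ pos D f (p - d) (p - d + D * lam) := by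
      intro x hx
      rw [mem_union] at hx
      rw [mem_pos]
      rcases hx with hx | hx
      · rw [hT3, mem_filter] at hx
        have := hT0 x hx.1
        exact ⟨⟨hx.2, this.2⟩, hTf x hx.1⟩
      · rw [mem_cl] at hx
        unfold sC' at hx
        rw [mem_filter, mem_sC] at hx
        exact ⟨⟨hx.1.1.1.1, hx.1.2⟩, hx.2⟩
    have h1 := card_le_card hsub
    rw [card_union_of_disjoint hdisj] at h1
    have hD0 := t.gen.D0
    have hlam0 := t.gen.lam0
    have hDl : 0 < D * lam := mul_pos hD0 hlam0
    have h2 := pos_upper D f (p - d) (p - d + D * lam) hD0 (by omega)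
    have h3 : ((pos D f (p - d) (p - d + D * lam)).card : ℤ) ≤ lam := by
      by_contra hcon
      push Not at hcon
      have h4 : D * (lam + 1) ≤ D * ((pos D f (p - d) (p - d + D * lam)).card : ℤ) :=
        mul_le_mul_of_nonneg_left (by omega) (by omega)
      have h5 : D * (lam + 1) = D * lam + D := by ring
      omega
    omega
  omega

/-- four disjoint parts of `Def` -/
theorem four (t : Typ S p d D lam) (f w0 : ℤ) (hf : ¬ D ∣ f) (A0 : Finset ℤ)
    (hA0 : A0 ⊆ sD S p d)
    (hd1 : ∀ x ∈ A0, ¬ D ∣ x - f) (hd2 : ∀ x ∈ A0, ¬ D ∣ x - 0)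
    (hd3 : ∀ x ∈ A0, x < p - d) :
    (A0.card : ℤ) + (((cl D f (sD S p d)).filter (fun w => w < w0)).card +
      ((cl D (f + p) (sD S p d)).filter (fun w => p - d ≤ w)).card +
      ((cl D 0 (sD S p d)).filter (fun w => w < p - d)).card +
      ((cl D f (sD S p d)).filter (fun w => w0 ≤ w)).card) ≤ (sD S p d).card := by
  classical
  set B1 := (cl D f (sD S p d)).filter (fun w => w < w0) with hB1
  set B2 := (cl D (f + p) (sD S p d)).filter (fun w => p - d ≤ w) with hB2
  set B3 := (cl D 0 (sD S p d)).filter (fun w => w < p - d) with hB3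
  set B4 := (cl D f (sD S p d)).filter (fun w => w0 ≤ w) with hB4
  have m1 : ∀ x ∈ B1, x ∈ sD S p d ∧ D ∣ x - f ∧ x < w0 := by
    intro x hx
    rw [hB1, mem_filter, mem_cl] at hx
    exact ⟨hx.1.1, hx.1.2, hx.2⟩
  have m2 : ∀ x ∈ B2, x ∈ sD S p d ∧ D ∣ x - (f + p) ∧ p - d ≤ x := by
    intro x hx
    rw [hB2, mem_filter, mem_cl] at hx
    exact ⟨hx.1.1, hx.1.2, hx.2⟩
  have m3 : ∀ x ∈ B3, x ∈ sD S p d ∧ D ∣ x - 0 ∧ x < p - d := by
    intro x hx
    rw [hB3, mem_filter, mem_cl] at hx
    exact ⟨hx.1.1, hx.1.2, hx.2⟩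
  have m4 : ∀ x ∈ B4, x ∈ sD S p d ∧ D ∣ x - f ∧ w0 ≤ x := by
    intro x hx
    rw [hB4, mem_filter, mem_cl] at hx
    exact ⟨hx.1.1, hx.1.2, hx.2⟩
  have n12 : ∀ x, D ∣ x - f → D ∣ x - (f + p) → False := by
    intro x h1 h2
    apply t.ndvd
    have he : p = (x - f) - (x - (f + p)) := by ring
    rw [he]; exact dvd_sub h1 h2
  have n13 : ∀ x, D ∣ x - f → D ∣ x - 0 → False := by
    intro x h1 h2
    apply hf
    have he : f = (x - 0) - (x - f) := by ring
    rw [he]; exact dvd_sub h2 h1
  have hsub : (((A0 ∪ B1) ∪ B2) ∪ B3) ∪ B4 ⊆ sD S p d := by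
    intro x hx
    rw [mem_union, mem_union, mem_union, mem_union] at hx
    rcases hx with (((hx | hx) | hx) | hx) | hx
    · exact hA0 hx
    · exact (m1 x hx).1
    · exact (m2 x hx).1
    · exact (m3 x hx).1
    · exact (m4 x hx).1
  have hc := card_le_card hsub
  rw [card_union_of_disjoint, card_union_of_disjoint, card_union_of_disjoint,
    card_union_of_disjoint] at hc
  · omega
  · rw [disjoint_left]
    intro x hx hx'
    exact hd1 x hx (m1 x hx').2.1
  · rw [disjoint_left]
    intro x hx hx'
    rw [mem_union] at hx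
    rcases hx with hx | hx
    · have h1 := hd3 x hx
      have h2 := (m2 x hx').2.2
      omega
    · exact n12 x (m1 x hx).2.1 (m2 x hx').2.1
  · rw [disjoint_left]
    intro x hx hx'
    rw [mem_union, mem_union] at hx
    rcases hx with (hx | hx) | hx
    · exact hd2 x hx (m3 x hx').2.1
    · exact n13 x (m1 x hx).2.1 (m3 x hx').2.1
    · have h1 := (m2 x hx).2.2
      have h2 := (m3 x hx').2.2
      omega
  · rw [disjoint_left]
    intro x hx hx'
    rw [mem_union, mem_union, mem_union] at hx
    rcases hx with ((hx | hx) | hx) | hx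
    · exact hd1 x hx (m4 x hx').2.1
    · have h1 := (m1 x hx).2.2
      have h2 := (m4 x hx').2.2
      omega
    · exact n12 x (m4 x hx').2.1 (m2 x hx).2.1
    · exact n13 x (m4 x hx').2.1 (m3 x hx).2.1

theorem active_ndvd (t : Typ S p d D lam) (e : ℤ) (he : ∃ w ∈ sC S p d, D ∣ w - e) : ¬ D ∣ e := by
  obtain ⟨w, hw, hd⟩ := he
  intro h
  apply t.C0 w hw
  have h1 : w = (w - e) + e := by ring
  rw [h1]; exact dvd_add hd h

/-- UNIT D1: an active class has no element of `R` in `[0, p - d)` -/
theorem noR (t : Typ S p d D lam) (e : ℤ)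
    (he : ∃ w ∈ sC S p d, D ∣ w - e) (w : ℤ) (hw : w ∈ sR S p d) (hwe : D ∣ w - e)
    (hw0 : 0 ≤ w) : p - d ≤ w := by
  classical
  by_contra hlt
  push Not at hlt
  have hd := t.cfg.hd
  have hdp := t.cfg.hdp
  have hl := t.gen.ell
  obtain ⟨w0, hw0K, hw0e, hmin, hlam⟩ := t.dense e he
  set Q := (sR S p d).filter (fun x => D ∣ x - e ∧ 0 ≤ x ∧ x < p - d) with hQ
  have hQne : Q.Nonempty := ⟨w, by rw [hQ, mem_filter]; exact ⟨hw, hwe, hw0, hlt⟩⟩
  obtain ⟨α, hα, hαmax⟩ := exists_max_image Q (fun x => x) hQne
  rw [hQ, mem_filter] at hα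
  obtain ⟨hαR, hαe, hα0, hαlt⟩ := hα
  set T := ((sI S p).image (fun i => α + i)).erase α with hT
  have hTm : ∀ x ∈ T, α < x ∧ x < p - d + D * lam ∧ D ∣ x - e ∧ 4 * p + x ∉ S := by
    intro x hx
    rw [hT, mem_erase, mem_image] at hx
    obtain ⟨hne, i, hi, rfl⟩ := hx
    have h1 := t.gen.rng i hi
    have h2 := t.gen.div i hi
    refine ⟨?_, by omega, ?_, ?_⟩
    · rcases lt_or_eq_of_le h1.1 with h | h
      · omega
      · exfalso; apply hne; omega
    · have h3 : α + i - e = (α - e) + i := by ring
      rw [h3]; exact dvd_add hαe h2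
    · intro hS
      rw [mem_sI] at hi
      rw [mem_sR] at hαR
      apply t.cfg.sf _ hαR.2 _ hi.2
      have h3 : 3 * p + α + (p + i) = 4 * p + (α + i) := by ring
      rw [h3]; exact hS
  have hTc : (sI S p).card ≤ T.card + 1 := by
    have h1 : ((sI S p).image (fun i => α + i)).card = (sI S p).card :=
      card_image_of_injective _ (fun a b h => by simpa using h)
    have h2 : ((sI S p).image (fun i => α + i)).card ≤ T.card + 1 := by
      have h3 := pred_card_le_card_erase (s := (sI S p).image (fun i => α + i)) (a := α)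
      rw [← hT] at h3
      omega
    omega
  have habs := t.absent e w0 hw0K hw0e hmin hlam T
    (fun x hx => by have := hTm x hx; omega) (fun x hx => (hTm x hx).2.2.1)
    (fun x hx => (hTm x hx).2.2.2)
    (by
      intro x hx hxw hxR
      have h1 := hTm x hx
      rw [mem_sK] at hw0K
      have h2 : x ∈ Q := by
        rw [hQ, mem_filter]
        exact ⟨hxR, h1.2.2.1, by omega, by omega⟩
      have h3 := hαmax x h2
      omega)
  have hfour := t.four e w0 (t.active_ndvd e he) ∅ (by simp) (by simp) (by simp) (by simp)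
  have hb := t.cfg.budget1
  simp only [card_empty] at hfour
  push_cast at hfour
  omega

/-- UNIT D3 -/
theorem double (t : Typ S p d D lam) (e : ℤ)
    (he : ∃ w ∈ sC S p d, D ∣ w - e) : ¬ ∃ w ∈ sC S p d, D ∣ w - 2 * e := by
  classical
  intro hf
  have hd := t.cfg.hd
  have hdp := t.cfg.hdp
  have hl := t.gen.ell
  have hD3 := t.D3
  obtain ⟨w0, hw0K, hw0e, hmin, hlam⟩ := t.dense (2 * e) hf
  obtain ⟨v0, hv0K, hv0e, -, -⟩ := t.dense e he
  set Ke := cl D e (sK S p d) with hKe
  have hKne : Ke.Nonempty := ⟨v0, by rw [hKe, mem_cl]; exact ⟨hv0K, hv0e⟩⟩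
  set A0 := (cl D e (sD S p d)).filter (fun x => x < p - d) with hA0
  have hN : (pos D e 0 (p - d)).card ≤ Ke.card + A0.card := by
    have hsub : pos D e 0 (p - d) ⊆ Ke ∪ A0 := by
      intro x hx
      rw [mem_pos] at hx
      rw [mem_union, hKe, hA0, mem_cl, mem_filter, mem_cl]
      by_cases hK : x ∈ sK S p d
      · left; exact ⟨hK, hx.2⟩
      · right
        refine ⟨⟨?_, hx.2⟩, hx.1.2⟩
        rw [mem_sD]
        refine ⟨⟨by omega, by omega⟩, hK, ?_, ?_⟩
        · intro hR
          have := t.noR e he x hR hx.2 hx.1.1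
          omega
        · intro hC
          rw [mem_sC] at hC
          omega
    exact (card_le_card hsub).trans (card_union_le _ _)
  set U := Ke + Ke with hU
  have hUc := card_add_ge Ke Ke hKne hKne
  rw [← hU] at hUc
  have hUm : ∀ x ∈ U, 0 ≤ x ∧ x ≤ 2 * (p - d) - 2 ∧ D ∣ x - 2 * e ∧ 4 * p + x ∉ S := by
    intro x hx
    rw [hU, mem_add] at hx
    obtain ⟨u, hu, v, hv, rfl⟩ := hx
    rw [hKe, mem_cl, mem_sK] at hu hv
    refine ⟨by omega, by omega, ?_, ?_⟩
    · have h1 : u + v - 2 * e = (u - e) + (v - e) := by ring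
      rw [h1]; exact dvd_add hu.2 hv.2
    · intro hS
      apply t.cfg.sf _ hu.1.2 _ hv.1.2
      have h1 : 2 * p + u + (2 * p + v) = 4 * p + (u + v) := by ring
      rw [h1]; exact hS
  set T := U.filter (fun x => x < p - d + D * lam) with hT
  set G := U.filter (fun x => ¬ x < p - d + D * lam) with hG
  have hTG : T.card + G.card = U.card := card_filter_add_card_filter_not (s := U) _
  have habs := t.absent (2 * e) w0 hw0K hw0e hmin hlam T
    (by
      intro x hx
      rw [hT, mem_filter] at hx
      exact ⟨(hUm x hx.1).1, hx.2⟩)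
    (fun x hx => (hUm x (mem_filter.1 hx).1).2.2.1)
    (fun x hx => (hUm x (mem_filter.1 hx).1).2.2.2)
    (by
      intro x hx hxw hxR
      have h1 := hUm x (mem_filter.1 hx).1
      rw [mem_sK] at hw0K
      have h2 := t.noR (2 * e) hf x hxR h1.2.2.1 h1.1
      omega)
  have hne := t.active_ndvd e he
  have hfour := t.four (2 * e) w0 (t.active_ndvd (2 * e) hf) A0
    (by
      intro x hx
      rw [hA0, mem_filter, mem_cl] at hx
      exact hx.1.1)
    (by
      intro x hx h2
      rw [hA0, mem_filter, mem_cl] at hx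
      apply hne
      have h1 : e = (x - e) - (x - 2 * e) := by ring
      rw [h1]; exact dvd_sub hx.1.2 h2)
    (by
      intro x hx h2
      rw [hA0, mem_filter, mem_cl] at hx
      apply hne
      have h1 : e = (x - 0) - (x - e) := by ring
      rw [h1]; exact dvd_sub h2 hx.1.2)
    (by
      intro x hx
      rw [hA0, mem_filter] at hx
      exact hx.2)
  have hNl := pos_lower D e 0 (p - d) (by omega) (by omega)
  have hmain : 2 * ((pos D e 0 (p - d)).card : ℤ) - 1 ≤ 2 * (sD S p d).card + G.card := by
    omega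
  by_cases hcase : p - d - 1 ≤ D * lam
  · have hGe : G = ∅ := by
      rw [eq_empty_iff_forall_notMem]
      intro x hx
      rw [hG, mem_filter] at hx
      have := hUm x hx.1
      omega
    rw [hGe] at hmain
    simp only [card_empty] at hmain
    push_cast at hmain
    exact t.num1 ((pos D e 0 (p - d)).card : ℤ) (by omega) (by omega)
  · push Not at hcase
    have hGc := class_card_le G (p - d + D * lam) (2 * (p - d) - 1) (2 * e) D (by omega)
      (by
        intro x hx
        rw [hG, mem_filter] at hx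
        have := hUm x hx.1
        omega)
      (by
        intro x hx
        rw [hG, mem_filter] at hx
        exact (hUm x hx.1).2.2.1) (by omega)
    have hdb := t.def_bound
    have h1 : D * (2 * ((pos D e 0 (p - d)).card : ℤ) - 1) ≤
        D * (2 * (sD S p d).card + G.card) := mul_le_mul_of_nonneg_left hmain (by omega)
    have h2 : D * (2 * ((sD S p d).card : ℤ) + d) ≤ D * (2 * lam) :=
      mul_le_mul_of_nonneg_left hdb (by omega)
    have h3 : D * 5 ≤ D * d := mul_le_mul_of_nonneg_left hd (by omega)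
    nlinarith

/-- the case `D ∤ p` is impossible for even `p` -/
theorem false_of_even (t : Typ S p d D lam) (hp : Even p) : False := by
  obtain ⟨r, hr⟩ := hp
  have h0 : ¬ ∃ w ∈ sC S p d, D ∣ w - 0 := by
    rintro ⟨w, hw, hd⟩
    rw [sub_zero] at hd
    exact t.C0 w hw hd
  have hmp := t.shift 0 h0
  by_cases h : ∃ w ∈ sC S p d, D ∣ w - r
  · have h1 := t.double r h
    have h2 := t.shift (2 * r) h1
    apply h0
    obtain ⟨w, hw, hd⟩ := h2
    refine ⟨w, hw, ?_⟩
    have he : 2 * r - p = 0 := by omega
    rwa [he] at hd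
  · have h1 := t.shift r h
    have h2 := t.double (r - p) h1
    apply h2
    obtain ⟨w, hw, hd⟩ := hmp
    refine ⟨w, hw, ?_⟩
    have he : 2 * (r - p) = 0 - p := by omega
    rwa [he]

end Typ

end MinEven
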