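import Mathlib
import Pool.Agent.H71M.Classify

open Finset
open scoped Pointwise

namespace MinEven

/-- The rigid configuration: the top two positions belong to `S` and the reflection is tight. -/
theorem rigid {S : Finset ℤ} {p d : ℤ} (h : Cfg S p d)
    (hC : 2 * ((sC S p d).card : ℤ) ≤ d + 2) (hM1 : 6 * p - 2 - d ∈ S) : False := by
  classical
  have hd := h.hd
  have hdp := h.hdp
  -- the reflection is tight on `[p, 5p - d)`
  set A := (Finset.Ico p (5 * p - d)).filter (fun x => x ∈ S) with hA
  have hAc : (A.card : ℤ) + (sC S p d).card = S.card := by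
    have h1 := card_eq_cnt' S p (6 * p - d) h.lo (fun x hx => by have := h.hi x hx; omega)
    have h2 := cnt_add S p (5 * p - d) (6 * p - d) (by omega) (by omega)
    have h3 := cnt_shift S (4 * p) (p - d) (2 * p - d)
    rw [show 4 * p + (p - d) = 5 * p - d by ring, show 4 * p + (2 * p - d) = 6 * p - d by ring]
      at h3
    have h4 : (sC S p d).card = cnt S (5 * p - d) (6 * p - d) := h3.symm
    have h5 : A.card = cnt S p (5 * p - d) := by
      unfold cnt
      congr 1
      ext x
      rw [hA, mem_filter, mem_filter, Finset.mem_Ico]
      exact and_comm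
    rw [h4, h5]
    omega
  set B := A.image (fun x => 6 * p - 1 - d - x) with hB
  have hBc : B.card = A.card := card_image_of_injective _ (fun a b h => by simpa using h)
  have hdisj : Disjoint A B := by
    rw [disjoint_left]
    intro x hx hx'
    rw [hB, mem_image] at hx'
    obtain ⟨y, hy, rfl⟩ := hx'
    rw [hA, mem_filter] at hx hy
    apply h.sf _ hx.2 _ hy.2
    have he : 6 * p - 1 - d - y + y = 6 * p - 1 - d := by ring
    rw [he]; exact h.MS
  have hsub : A ∪ B ⊆ Finset.Ico p (5 * p - d) := by
    intro x hx
    rw [mem_union] at hx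
    rcases hx with hx | hx
    · rw [hA, mem_filter] at hx; exact hx.1
    · rw [hB, mem_image] at hx
      obtain ⟨y, hy, rfl⟩ := hx
      rw [hA, mem_filter, Finset.mem_Ico] at hy
      rw [Finset.mem_Ico]
      omega
  have hbig := h.big
  have heq : A ∪ B = Finset.Ico p (5 * p - d) := by
    apply eq_of_subset_of_card_le hsub
    rw [card_union_of_disjoint hdisj, Int.card_Ico, hBc]
    omega
  have htight : ∀ x, p ≤ x → x < 5 * p - d → x ∈ S ∨ 6 * p - 1 - d - x ∈ S := by
    intro x h1 h2
    have hx : x ∈ A ∪ B := by rw [heq, Finset.mem_Ico]; exact ⟨h1, h2⟩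
    rw [mem_union] at hx
    rcases hx with hx | hx
    · left; rw [hA, mem_filter] at hx; exact hx.2
    · right
      rw [hB, mem_image] at hx
      obtain ⟨y, hy, rfl⟩ := hx
      rw [hA, mem_filter] at hy
      have he : 6 * p - 1 - d - (6 * p - 1 - d - y) = y := by ring
      rw [he]; exact hy.2
  have hind : ∀ j : ℕ, (j : ℤ) ≤ p → p + j ∈ S := by
    intro j
    induction j with
    | zero => intro _; simpa using h.pS
    | succ j ih =>
      intro hj
      push_cast at hj
      have h1 := ih (by omega)
      rcases htight (p + (j + 1 : ℤ)) (by omega) (by omega) with h2 | h2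
      · push_cast; exact h2
      · exfalso
        apply h.sf _ h1 _ h2
        have he : p + (j : ℤ) + (6 * p - 1 - d - (p + ((j : ℤ) + 1))) = 6 * p - 2 - d := by ring
        rw [he]; exact hM1
  obtain ⟨n, hn⟩ := Int.eq_ofNat_of_zero_le (show 0 ≤ p by omega)
  have h2 := hind n (by omega)
  rw [← hn] at h2
  exact h.sf p h.pS p h.pS h2

/-- For `D = 1` the set `C'` is dense. -/
theorem one_case {S : Finset ℤ} {p d lam : ℤ} (h : Cfg S p d) (g : Gen (sI S p) 1 lam) :
    ((sC' S p d 1 lam).card : ℤ) + lam ≤ (sC' S p d 1 lam - sI S p).card := by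
  classical
  have hd := h.hd
  have hdp := h.hdp
  have hl := g.ell
  rw [one_mul] at hl
  have hl0 := g.lam0
  have hb1 := h.budget1
  have hIne : (sI S p).Nonempty := ⟨0, h.zero_I⟩
  have hgc := g.card_le
  have hrng : ∀ i ∈ sI S p, 0 ≤ i ∧ i ≤ lam := by
    intro i hi
    have := g.rng i hi
    rw [one_mul] at this
    exact this
  set E := sC' S p d 1 lam with hE
  set F := sK' S p d 1 lam with hF
  have hEmem : ∀ w ∈ E, w ∈ sC S p d ∧ w < p - d + lam := by
    intro w hw
    rw [hE] at hw
    unfold sC' at hw
    rw [mem_filter, one_mul] at hw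
    exact hw
  have hFmem : ∀ w ∈ F, w ∈ sK S p d ∧ p - d - lam ≤ w := by
    intro w hw
    rw [hF] at hw
    unfold sK' at hw
    rw [mem_filter, one_mul] at hw
    exact hw
  have hEin : ∀ w, w ∈ sC S p d → w < p - d + lam → w ∈ E := by
    intro w h1 h2
    rw [hE]
    unfold sC'
    rw [mem_filter, one_mul]
    exact ⟨h1, h2⟩
  have hFin : ∀ w, w ∈ sK S p d → p - d - lam ≤ w → w ∈ F := by
    intro w h1 h2
    rw [hF]
    unfold sK'
    rw [mem_filter, one_mul]
    exact ⟨h1, h2⟩
  -- `C'` is nonempty
  have hC : (sC S p d).Nonempty := ⟨_, h.top_C⟩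
  have hC' : E.Nonempty := by
    by_contra hC'
    rw [not_nonempty_iff_eq_empty] at hC'
    have hhigh : ∀ w ∈ sC S p d, p - d + lam ≤ w := by
      intro w hw
      by_contra hlt
      push Not at hlt
      have := hEin w hw hlt
      rw [hC'] at this
      exact absurd this (notMem_empty _)
    have hsub : sC S p d - sI S p ⊆ sC S p d ∪ sD S p d := by
      intro x hx
      rw [mem_sub] at hx
      obtain ⟨w, hw, i, hi, rfl⟩ := hx
      have h1 := hhigh w hw
      have h2 := hrng i hi
      rw [mem_union]
      rcases h.sub_cases hw hi (by omega) with h3 | h3 | h3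
      · exfalso
        rw [mem_sK] at h3
        omega
      · left; exact h3
      · right; exact h3
    have h1 := card_le_card hsub
    have h2 := card_union_le (sC S p d) (sD S p d)
    have h3 := card_sub_ge _ _ hC hIne
    omega
  -- `K` nonempty gives `K'` nonempty
  have hKK' : (sK S p d).Nonempty → F.Nonempty := by
    intro hK
    by_contra hK'
    rw [not_nonempty_iff_eq_empty] at hK'
    have hlow : ∀ w ∈ sK S p d, w < p - d - lam := by
      intro w hw
      by_contra hlt
      push Not at hlt
      have := hFin w hw hlt
      rw [hK'] at this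
      exact absurd this (notMem_empty _)
    have hsub : sK S p d + sI S p ⊆ sK S p d ∪ sD S p d := by
      intro x hx
      rw [mem_add] at hx
      obtain ⟨w, hw, i, hi, rfl⟩ := hx
      have h1 := hlow w hw
      have h2 := hrng i hi
      rw [mem_union]
      rcases h.add_cases hw hi with h3 | h3 | h3
      · left; exact h3
      · exfalso
        rw [mem_sC] at h3
        omega
      · right; exact h3
    have h1 := card_le_card hsub
    have h2 := card_union_le (sK S p d) (sD S p d)
    have h3 := card_add_ge _ _ hK hIne
    omega
  -- negative part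
  set N := (E - sI S p).filter (fun x => x < 0) with hN
  have hNr : ∀ x ∈ N, p - d - lam ≤ x ∧ x < 0 := by
    intro x hx
    rw [hN, mem_filter, mem_sub] at hx
    obtain ⟨⟨w, hw, i, hi, rfl⟩, h2⟩ := hx
    have h3 := (hEmem w hw).1
    rw [mem_sC] at h3
    have h4 := hrng i hi
    omega
  have hb2 := h.budget2 N (by
      intro x hx
      have := hNr x hx
      omega)
    (by
      intro x hx
      rw [hN, mem_filter, mem_sub] at hx
      obtain ⟨⟨w, hw, i, hi, rfl⟩, h2⟩ := hx
      exact h.CI (hEmem w hw).1 hi)
  have hNle : (N.card : ℤ) ≤ max 0 (lam - (p - d)) := by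
    by_cases hcase : p - d - lam ≤ 0
    · have h1 := class_card_le N (p - d - lam) 0 0 1 (by norm_num) hNr
        (fun x _ => one_dvd _) hcase
      have h2 : lam - (p - d) ≤ max 0 (lam - (p - d)) := le_max_right _ _
      omega
    · have : N = ∅ := by
        rw [eq_empty_iff_forall_notMem]
        intro x hx
        have := hNr x hx
        omega
      rw [this]
      simp
  -- upper bounds
  have hupC : ((E - sI S p).card : ℤ) ≤ F.card + E.card + (sD S p d).card + N.card := by
    have hsub : E - sI S p ⊆ ((F ∪ E) ∪ sD S p d) ∪ N := by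
      intro x hx
      rw [mem_union, mem_union, mem_union]
      by_cases hx0 : x < 0
      · right; rw [hN, mem_filter]; exact ⟨hx, hx0⟩
      left
      rw [mem_sub] at hx
      obtain ⟨w, hw, i, hi, rfl⟩ := hx
      have h1 := hEmem w hw
      have h2 := hrng i hi
      have h5 := h1.1
      rw [mem_sC] at h5
      rcases h.sub_cases h1.1 hi (by omega) with h3 | h3 | h3
      · left; left
        exact hFin _ h3 (by omega)
      · left; right
        exact hEin _ h3 (by omega)
      · right; exact h3
    have h1 := card_le_card hsub
    have h2 := card_union_le ((F ∪ E) ∪ sD S p d) N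
    have h3 := card_union_le (F ∪ E) (sD S p d)
    have h4 := card_union_le F E
    omega
  have hupK : ((F + sI S p).card : ℤ) ≤ F.card + E.card + (sD S p d).card := by
    have hsub : F + sI S p ⊆ (F ∪ E) ∪ sD S p d := by
      intro x hx
      rw [mem_union, mem_union]
      rw [mem_add] at hx
      obtain ⟨w, hw, i, hi, rfl⟩ := hx
      have h1 := hFmem w hw
      have h2 := hrng i hi
      have h5 := h1.1
      rw [mem_sK] at h5
      rcases h.add_cases h1.1 hi with h3 | h3 | h3
      · left; left
        exact hFin _ h3 (by omega)
      · left; right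
        exact hEin _ h3 (by omega)
      · right; exact h3
    have h1 := card_le_card hsub
    have h3 := card_union_le (F ∪ E) (sD S p d)
    have h4 := card_union_le F E
    omega
  -- FLS for `C'`
  have hflsC := g.fls_sub E hC' (fun x _ y _ => one_dvd _)
    (by
      intro x hx y hy
      have h1 := hEmem x hx
      have h2 := hEmem y hy
      rw [mem_sC] at h1 h2
      omega)
  by_contra hcon
  rcases hflsC with h1 | h1
  · exact hcon h1
  by_cases hK : (sK S p d).Nonempty
  · have hK' := hKK' hK
    have hflsK := g.fls_add F hK' (fun x _ y _ => one_dvd _)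
      (by
        intro x hx y hy
        have h1 := hFmem x hx
        have h2 := hFmem y hy
        rw [mem_sK] at h1 h2
        omega)
    rcases hflsK with h2 | h2 <;> omega
  · -- `K = ∅`
    rw [not_nonempty_iff_eq_empty] at hK
    have hFe : F = ∅ := by
      rw [eq_empty_iff_forall_notMem]
      intro x hx
      have := (hFmem x hx).1
      rw [hK] at this
      exact absurd this (notMem_empty _)
    have hF0 : F.card = 0 := by rw [hFe]; rfl
    have hEpos : (1 : ℤ) ≤ E.card := by
      have := card_pos.2 hC'
      omega
    -- size of the part of `C` above the zone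
    set G := (sC S p d).filter (fun w => p - d + lam ≤ w) with hG
    have hCEG : ((sC S p d).card : ℤ) ≤ E.card + G.card := by
      have hsub : sC S p d ⊆ E ∪ G := by
        intro w hw
        rw [mem_union]
        by_cases hlt : w < p - d + lam
        · left; exact hEin w hw hlt
        · right
          rw [hG, mem_filter]
          exact ⟨hw, by omega⟩
      have h2 := card_le_card hsub
      have h3 := card_union_le E G
      omega
    have hGr : ∀ x ∈ G, p - d + lam ≤ x ∧ x < 2 * p - d := by
      intro x hx
      rw [hG, mem_filter, mem_sC] at hx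
      omega
    have hGc := class_card_le G (p - d + lam) (2 * p - d) 0 1 (by norm_num) hGr
      (fun x _ => one_dvd _) (by omega)
    have hM1 : 6 * p - 2 - d ∈ S ∨ 2 * ((sC S p d).card : ℤ) < d + 2 := by
      by_cases hin : 2 * p - d - 2 ∈ G
      · left
        rw [hG, mem_filter, mem_sC] at hin
        have he : 4 * p + (2 * p - d - 2) = 6 * p - 2 - d := by ring
        rw [← he]; exact hin.1.2
      · right
        have hGr' : ∀ x ∈ G, x ∈ (Finset.Ico (p - d + lam) (2 * p - d)).erase (2 * p - d - 2) := by
          intro x hx
          rw [mem_erase, Finset.mem_Ico]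
          refine ⟨?_, hGr x hx⟩
          rintro rfl
          exact hin hx
        by_cases hlam : lam ≤ p - 2
        · have h5 := card_le_card (show G ⊆ _ from hGr')
          have h6 : 2 * p - d - 2 ∈ Finset.Ico (p - d + lam) (2 * p - d) := by
            rw [Finset.mem_Ico]
            omega
          have h7 := card_erase_add_one h6
          rw [Int.card_Ico] at h7
          omega
        · omega
    -- reflection lower bound on `|C|`
    have hrefl : d + 2 ≤ 2 * ((sC S p d).card : ℤ) := by
      have h1 := card_eq_cnt' S p (6 * p - d) h.lo (fun x hx => by have := h.hi x hx; omega)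
      have h2 := cnt_add S p (5 * p - d) (6 * p - d) (by omega) (by omega)
      have h3 := cnt_shift S (4 * p) (p - d) (2 * p - d)
      rw [show 4 * p + (p - d) = 5 * p - d by ring, show 4 * p + (2 * p - d) = 6 * p - d by ring]
        at h3
      have h4 : (sC S p d).card = cnt S (5 * p - d) (6 * p - d) := h3.symm
      have h5 := cnt_reflect S h.sf (6 * p - 1 - d) h.MS p (5 * p - d) (by omega)
      rw [show 6 * p - 1 - d - (5 * p - d) + 1 = p by ring,
        show 6 * p - 1 - d - p + 1 = 5 * p - d by ring] at h5
      have h6 := h.big
      rw [h4]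
      omega
    rcases hM1 with hM1 | hM1
    · exact rigid h (by omega) hM1
    · omega

end MinEven
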