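import Mathlib
import Pool.Agent.H71M.NonDiv
import Pool.Agent.H71M.OneCase
import Pool.Agent.H96.MEGenB

open Finset
open scoped Pointwise

namespace MinEven

/-- two inactive classes differing by `p` are impossible -/
theorem inactive_pair {S : Finset ℤ} {p d D lam : ℤ} (h : Cfg S p d) (g : Gen (sI S p) D lam)
    (hD : 3 ≤ D ∨ (D = 2 ∧ 2 ∣ p)) (KC : ∀ w ∈ sK S p d, ∃ w' ∈ sC S p d, D ∣ w' - w) (c : ℤ)
    (hc : ¬ ∃ w ∈ sC S p d, D ∣ w - c) (hcp : ¬ ∃ w ∈ sC S p d, D ∣ w - (c - p)) : False := by
  classical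
  have hd := h.hd
  have hdp := h.hdp
  have hinj : (pos D (c - p) 0 (p - d)).card ≤ (sD S p d).card := by
    apply card_le_card_of_injOn (fun x => if x ∈ sD S p d then x else x + p)
    · intro x hx
      have hx' : x ∈ pos D (c - p) 0 (p - d) := hx
      rw [mem_pos] at hx'
      by_cases hxD : x ∈ sD S p d
      · simp only [if_pos hxD]
        exact hxD
      · simp only [if_neg hxD]
        have hxK : x ∉ sK S p d := by
          intro hK
          obtain ⟨w', hw', hd'⟩ := KC x hK
          apply hcp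
          refine ⟨w', hw', ?_⟩
          have he : w' - (c - p) = (w' - x) + (x - (c - p)) := by ring
          rw [he]; exact dvd_add hd' hx'.2
        have hxC : x ∉ sC S p d := by
          intro hC
          rw [mem_sC] at hC
          omega
        have hxR : x ∈ sR S p d := by
          by_contra hR
          apply hxD
          rw [mem_sD]
          exact ⟨⟨by omega, by omega⟩, hxK, hR, hxC⟩
        show x + p ∈ sD S p d
        rw [mem_sD]
        refine ⟨⟨by omega, by omega⟩, ?_, ?_, ?_⟩
        · intro hK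
          rw [mem_sK] at hK
          omega
        · intro hR
          rw [mem_sR] at hR hxR
          apply h.sf _ hxR.2 _ h.pS
          have he : 3 * p + x + p = 3 * p + (x + p) := by ring
          rw [he]; exact hR.2
        · intro hC
          apply hc
          refine ⟨x + p, hC, ?_⟩
          have he : x + p - c = x - (c - p) := by ring
          rw [he]; exact hx'.2
    · intro x hx y hy hxy
      have hx' : x ∈ pos D (c - p) 0 (p - d) := hx
      have hy' : y ∈ pos D (c - p) 0 (p - d) := hy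
      rw [mem_pos] at hx' hy'
      simp only at hxy
      split_ifs at hxy with h1 h2 h2 <;> omega
  have hb := h.budget1
  have hgc := g.card_le
  have hl := g.ell
  have hD0 := g.D0
  have h1 := pos_lower D (c - p) 0 (p - d) hD0 (by omega)
  rcases hD with hD | ⟨hD, r, hr⟩
  · have h5 : D * (2 * ((pos D (c - p) 0 (p - d)).card : ℤ) + d) ≤ D * (2 * lam) :=
      mul_le_mul_of_nonneg_left (by omega) (by omega)
    have h6 : 0 < (D - 2) * (d - 2) := mul_pos (by omega) (by omega)
    nlinarith
  · subst hD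
    omega

/-- the lower-zone density for an active class -/
theorem dense_of_classify {S : Finset ℤ} {p d D lam : ℤ} (h : Cfg S p d)
    (g : Gen (sI S p) D lam) (hD : 3 ≤ D ∨ (D = 2 ∧ 2 ∣ p)) (c : ℤ)
    (hc : ∃ w ∈ sC S p d, D ∣ w - c) : ∃ w0 ∈ sK S p d, D ∣ w0 - c ∧
    (∀ w ∈ sK S p d, D ∣ w - c → w0 ≤ w) ∧
    lam ≤ ((cl D c (sC' S p d D lam)).card : ℤ)
      + ((cl D c (sD S p d)).filter (fun w => w0 ≤ w)).card := by
  classical
  rcases classify h g hD c with ⟨h1, -⟩ | ⟨-, hKne, -, hK⟩
  · exfalso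
    obtain ⟨w, hw, hwc⟩ := hc
    have : w ∈ cl D c (sC S p d) := mem_cl.2 ⟨hw, hwc⟩
    rw [h1] at this
    exact absurd this (notMem_empty _)
  have hKne2 : (cl D c (sK S p d)).Nonempty := by
    obtain ⟨x, hx⟩ := hKne
    refine ⟨x, ?_⟩
    rw [mem_cl] at hx ⊢
    refine ⟨?_, hx.2⟩
    have h1 := hx.1
    unfold sK' at h1
    exact (mem_filter.1 h1).1
  obtain ⟨w0, hw0, hmin⟩ := exists_min_image (cl D c (sK S p d)) (fun x => x) hKne2
  rw [mem_cl] at hw0
  refine ⟨w0, hw0.1, hw0.2, fun w hw hwc => hmin w (mem_cl.2 ⟨hw, hwc⟩), ?_⟩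
  set F := cl D c (sK' S p d D lam) with hF
  set E := cl D c (sC' S p d D lam) with hE
  have hsub : F + sI S p ⊆ (F ∪ E) ∪ (cl D c (sD S p d)).filter (fun w => w0 ≤ w) := by
    intro x hx
    rw [mem_add] at hx
    obtain ⟨w, hw, i, hi, rfl⟩ := hx
    rw [hF, mem_cl] at hw
    have hw1 := hw.1
    unfold sK' at hw1
    rw [mem_filter] at hw1
    have h2 := g.rng i hi
    have hxc : D ∣ w + i - c := by
      have he : w + i - c = (w - c) + i := by ring
      rw [he]; exact dvd_add hw.2 (g.div i hi)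
    have hw0w : w0 ≤ w := hmin w (mem_cl.2 ⟨hw1.1, hw.2⟩)
    have h5 := hw1.1
    rw [mem_sK] at h5
    rw [mem_union, mem_union]
    rcases h.add_cases hw1.1 hi with h3 | h3 | h3
    · left; left
      rw [hF, mem_cl]
      unfold sK'
      rw [mem_filter]
      exact ⟨⟨h3, by omega⟩, hxc⟩
    · left; right
      rw [hE, mem_cl]
      unfold sC'
      rw [mem_filter]
      exact ⟨⟨h3, by omega⟩, hxc⟩
    · right
      rw [mem_filter, mem_cl]
      exact ⟨⟨h3, hxc⟩, by omega⟩
  have h1 := card_le_card hsub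
  have h3 := card_union_le (F ∪ E) ((cl D c (sD S p d)).filter (fun w => w0 ≤ w))
  have h4 := card_union_le F E
  omega

/-- no counterexample for even `p` -/
theorem no_cfg {S : Finset ℤ} {p d : ℤ} (h : Cfg S p d) (hp : Even p) : False := by
  classical
  obtain ⟨D, lam, g⟩ := h.gen_exists
  have hD0 := g.D0
  by_cases hD1 : D = 1
  · subst hD1
    exact h.accounting_one g (one_case h g)
  have hD : 3 ≤ D ∨ (D = 2 ∧ 2 ∣ p) := by
    by_cases hD2 : D = 2
    · right; exact ⟨hD2, hp.two_dvd⟩
    · left; omega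
  have KC : ∀ w ∈ sK S p d, ∃ w' ∈ sC S p d, D ∣ w' - w := by
    intro w hw
    rcases classify h g hD w with ⟨-, h2⟩ | ⟨hC, -, -, -⟩
    · exfalso
      have : w ∈ cl D w (sK S p d) := mem_cl.2 ⟨hw, by rw [sub_self]; exact dvd_zero D⟩
      rw [h2] at this
      exact absurd this (notMem_empty _)
    · obtain ⟨x, hx⟩ := hC
      rw [mem_cl] at hx
      have h1 := hx.1
      unfold sC' at h1
      exact ⟨x, (mem_filter.1 h1).1, hx.2⟩
  by_cases hact : ∃ w ∈ sC S p d, D ∣ w - 0
  · -- accounting
    set A := (Finset.Ico 0 D).filter (fun c => ∃ w ∈ sC S p d, D ∣ w - c) with hA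
    have hmod : ∀ w : ℤ, ∃ c, (0 ≤ c ∧ c < D) ∧ D ∣ w - c := by
      intro w
      refine ⟨w % D, ⟨Int.emod_nonneg w (by omega), Int.emod_lt_of_pos w hD0⟩, ?_⟩
      exact Int.dvd_self_sub_emod
    refine h.accounting g hD A ?_ ?_ ?_ ?_ ?_
    · intro c hc
      rw [hA, mem_filter, Finset.mem_Ico] at hc
      exact hc.1
    · rw [hA, mem_filter, Finset.mem_Ico]
      exact ⟨⟨le_refl 0, hD0⟩, hact⟩
    · intro w hw
      obtain ⟨c, hc, hwc⟩ := hmod w
      refine ⟨c, ?_, hwc⟩
      rw [hA, mem_filter, Finset.mem_Ico]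
      refine ⟨hc, ?_⟩
      obtain ⟨w', hw', hd'⟩ := KC w hw
      refine ⟨w', hw', ?_⟩
      have he : w' - c = (w' - w) + (w - c) := by ring
      rw [he]; exact dvd_add hd' hwc
    · intro w hw
      obtain ⟨c, hc, hwc⟩ := hmod w
      refine ⟨c, ?_, hwc⟩
      rw [hA, mem_filter, Finset.mem_Ico]
      exact ⟨hc, w, hw, hwc⟩
    · intro c hc
      rw [hA, mem_filter] at hc
      rcases classify h g hD c with ⟨h1, -⟩ | ⟨-, -, h3, -⟩
      · exfalso
        obtain ⟨w, hw, hwc⟩ := hc.2
        have : w ∈ cl D c (sC S p d) := mem_cl.2 ⟨hw, hwc⟩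
        rw [h1] at this
        exact absurd this (notMem_empty _)
      · exact h3
  · by_cases hdvd : D ∣ p
    · apply inactive_pair h g hD KC 0 hact
      rintro ⟨w, hw, hwc⟩
      apply hact
      refine ⟨w, hw, ?_⟩
      have he : w - 0 = (w - (0 - p)) - p := by ring
      rw [he]; exact dvd_sub hwc hdvd
    · have hD3 : 3 ≤ D := by
        rcases hD with hD | ⟨hD, h2⟩
        · exact hD
        · exfalso; apply hdvd; rw [hD]; exact h2
      have t : Typ S p d D lam :=
        { cfg := h
          gen := g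
          D3 := hD3
          ndvd := hdvd
          C0 := by
            intro w hw hd
            exact hact ⟨w, hw, by rw [sub_zero]; exact hd⟩
          KC := KC
          dense := fun c hc => dense_of_classify h g hD c hc }
      exact t.false_of_even hp

end MinEven
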