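import Mathlib
import Pool.Agent.H71M.FLS
import Pool.Agent.H71M.Basic

open Finset
open scoped Pointwise

namespace MinEven

theorem card_eq_cnt (S : Finset ℤ) (p M : ℤ) (hmin : ∀ x ∈ S, p ≤ x) (hmax : ∀ x ∈ S, x ≤ M) :
    S.card = cnt S p (M + 1) := by
  unfold cnt
  congr 1
  ext x
  rw [mem_filter]
  constructor
  · intro h
    have h1 := hmin x h
    have h2 := hmax x h
    exact ⟨h, h1, by omega⟩
  · exact fun h => h.1

/-- The main upper bound: the case `M < 5 p`. -/
theorem upper_small (S : Finset ℤ) (p M : ℤ) (hp : 0 < p)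
    (hsf : ∀ x ∈ S, ∀ y ∈ S, x + y ∉ S) (hpS : p ∈ S) (hmin : ∀ x ∈ S, p ≤ x)
    (hmax : ∀ x ∈ S, x ≤ M) (hM : M < 5 * p) : (S.card : ℤ) ≤ 2 * p := by
  have hk := card_eq_cnt S p (5 * p - 1) hmin (fun x hx => by have := hmax x hx; omega)
  have h1 := cnt_add S p (3 * p) (5 * p - 1 + 1) (by omega) (by omega)
  have h2 := cnt_add S p (p + p) (3 * p) (by omega) (by omega)
  have h3 := cnt_add S (3 * p) (3 * p + p) (5 * p - 1 + 1) (by omega) (by omega)
  have h4 := cnt_translate S hsf p hpS p p (by omega)
  have h5 := cnt_translate S hsf p hpS (3 * p) p (by omega)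
  have e1 : p + p + p = 3 * p := by ring
  have e2 : 3 * p + p + p = 5 * p - 1 + 1 := by ring
  rw [e1] at h4
  rw [e2] at h5
  omega

/-- The main upper bound `|S| ≤ 2 p`. -/
theorem upper_main (kn : ∀ n : ℕ, 0 < n → KneserFor (ZMod n)) (S : Finset ℤ) (p M : ℤ)
    (hp : 0 < p) (hpe : Even p)
    (hsf : ∀ x ∈ S, ∀ y ∈ S, x + y ∉ S) (hpS : p ∈ S) (hmin : ∀ x ∈ S, p ≤ x) (hMS : M ∈ S)
    (hmax : ∀ x ∈ S, x ≤ M) (hM : 3 * M + 1 < 16 * p) : (S.card : ℤ) ≤ 2 * p := by
  classical
  by_cases hM5 : M < 5 * p
  · exact upper_small S p M hp hsf hpS hmin hmax hM5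
  push Not at hM5
  by_contra hcon
  push Not at hcon
  -- decomposition
  have hk := card_eq_cnt S p M hmin hmax
  have hadd1 := cnt_add S p (2 * p) (M + 1) (by omega) (by omega)
  have hadd2 := cnt_add S p (M - 2 * p + 1) (M + 1) (by omega) (by omega)
  have hadd3 := cnt_add S p (2 * p) (M - 2 * p + 1) (by omega) (by omega)
  -- top window
  have htop : (cnt S (M - 2 * p + 1) (M + 1) : ℤ) ≤ p := by
    have h1 := cnt_add S (M - 2 * p + 1) (M - 2 * p + 1 + p) (M + 1) (by omega) (by omega)
    have h2 := cnt_translate S hsf p hpS (M - 2 * p + 1) p (by omega)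
    have e : M - 2 * p + 1 + p + p = M + 1 := by ring
    rw [e] at h2
    omega
  -- reflection of the middle
  have hrefl : 2 * (cnt S (2 * p) (M - 2 * p + 1) : ℤ) ≤ M - 4 * p + 1 := by
    have h1 := cnt_reflect S hsf M hMS (2 * p) (M - 2 * p + 1) (by omega)
    have e1 : M - (M - 2 * p + 1) + 1 = 2 * p := by ring
    rw [e1] at h1
    omega
  set Y := S.filter (fun x => p ≤ x ∧ x < M - 2 * p + 1) with hY
  set Y1 := S.filter (fun x => p ≤ x ∧ x < 2 * p) with hY1
  have hYc : cnt S p (M - 2 * p + 1) = Y.card := rfl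
  have hY1c : cnt S p (2 * p) = Y1.card := rfl
  have hpY : p ∈ Y := by rw [hY, mem_filter]; exact ⟨hpS, le_refl _, by omega⟩
  have hpY1 : p ∈ Y1 := by rw [hY1, mem_filter]; exact ⟨hpS, le_refl _, by omega⟩
  -- the maximum of `Y`
  obtain ⟨y, hyY, hymax⟩ := exists_max_image Y (fun x => x) ⟨p, hpY⟩
  have hyY' := hyY
  rw [hY, mem_filter] at hyY'
  have hlow : (cnt S p (3 * p) : ℤ) ≤ p := by
    have h2 := cnt_add S p (p + p) (3 * p) (by omega) (by omega)
    have h4 := cnt_translate S hsf p hpS p p (by omega)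
    have e1 : p + p + p = 3 * p := by ring
    rw [e1] at h4
    omega
  have hy3 : 3 * p ≤ y := by
    by_contra hy3
    push Not at hy3
    have hsub : Y ⊆ S.filter (fun x => p ≤ x ∧ x < 3 * p) := by
      intro x hx
      have hx' := hx
      rw [hY, mem_filter] at hx'
      rw [mem_filter]
      have hxy := hymax x hx
      exact ⟨hx'.1, hx'.2.1, by omega⟩
    have h1 := card_le_card hsub
    have h2 : (S.filter (fun x => p ≤ x ∧ x < 3 * p)).card = cnt S p (3 * p) := rfl
    omega
  have hYle : (Y.card : ℤ) ≤ p + (y + 1 - 3 * p) := by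
    have hsub : Y ⊆ S.filter (fun x => p ≤ x ∧ x < y + 1) := by
      intro x hx
      have hx' := hx
      rw [hY, mem_filter] at hx'
      rw [mem_filter]
      have hxy := hymax x hx
      exact ⟨hx'.1, hx'.2.1, by omega⟩
    have h1 := card_le_card hsub
    have h2 : (S.filter (fun x => p ≤ x ∧ x < y + 1)).card = cnt S p (y + 1) := rfl
    have h3 := cnt_add S p (3 * p) (y + 1) (by omega) (by omega)
    have h4 := cnt_le S (3 * p) (y + 1) (by omega)
    omega
  -- the normalised set
  set I := Y.image (fun x => x - p) with hI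
  have hIc : I.card = Y.card := card_image_of_injective _ (fun a b h => by simpa using h)
  have hI0 : (0 : ℤ) ∈ I := by
    rw [hI, mem_image]; exact ⟨p, hpY, by ring⟩
  have hIy : y - p ∈ I := by
    rw [hI, mem_image]; exact ⟨y, hyY, rfl⟩
  have hIr : ∀ x ∈ I, 0 ≤ x ∧ x ≤ y - p := by
    intro x hx
    rw [hI, mem_image] at hx
    obtain ⟨z, hz, rfl⟩ := hx
    have h1 := hymax z hz
    rw [hY, mem_filter] at hz
    omega
  -- the sumset avoids `S`
  have hsum : ((I + Y1).card : ℤ) + cnt S (2 * p) (M + 1) ≤ M - 2 * p + 1 := by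
    have h := card_add_le_of_disjoint ((I + Y1).image (fun x => x + p))
      (S.filter (fun x => 2 * p ≤ x ∧ x < M + 1)) (2 * p) (M + 1) (by omega)
      (by
        intro x hx
        rw [mem_image] at hx
        obtain ⟨z, hz, rfl⟩ := hx
        rw [mem_add] at hz
        obtain ⟨i, hi, b, hb, rfl⟩ := hz
        have h1 := hIr i hi
        rw [hY1, mem_filter] at hb
        omega)
      (by intro x hx; rw [mem_filter] at hx; exact hx.2)
      (by
        intro x hx hx'
        rw [mem_image] at hx
        obtain ⟨z, hz, rfl⟩ := hx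
        rw [mem_add] at hz
        obtain ⟨i, hi, b, hb, rfl⟩ := hz
        rw [hI, mem_image] at hi
        obtain ⟨w, hw, rfl⟩ := hi
        rw [hY, mem_filter] at hw
        rw [hY1, mem_filter] at hb
        rw [mem_filter] at hx'
        apply hsf w hw.1 b hb.1
        have he : w - p + b + p = w + b := by ring
        rw [he] at hx'
        exact hx'.1)
    rw [card_image_of_injective _ (fun a b h => by simpa using h)] at h
    have h2 : (S.filter (fun x => 2 * p ≤ x ∧ x < M + 1)).card = cnt S (2 * p) (M + 1) := rfl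
    rw [h2] at h
    omega
  -- the case distinction on the generated subgroup
  rcases closure_top_or I (y - p) hIy (by omega) with hgen | ⟨g, hg2, hgI⟩
  · obtain ⟨n, hn⟩ := Int.eq_ofNat_of_zero_le (show 0 ≤ y - p by omega)
    have hn0 : 0 < n := by omega
    rw [hn] at hIy
    have hB := fls_strict n hn0 (kn n hn0) I Y1 hI0 hIy
      (by intro x hx; have := hIr x hx; omega) hgen ⟨p, hpY1⟩
      (by
        intro x hx y' hy'
        rw [hY1, mem_filter] at hx hy'
        omega)
    rcases hB with hB | hB
    · omega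
    · omega
  · -- all of `Y` in one class modulo `g ≥ 2`
    have hYg : ∀ x ∈ Y, g ∣ x - p := by
      intro x hx
      exact hgI (x - p) (by rw [hI, mem_image]; exact ⟨x, hx, rfl⟩)
    by_cases hg3 : 3 ≤ g
    · have h1 := class_card_le Y p (M - 2 * p + 1) p g (by omega)
        (by intro x hx; rw [hY, mem_filter] at hx; exact hx.2) hYg (by omega)
      have h2 : 3 * ((Y.card : ℤ) - 1) ≤ g * ((Y.card : ℤ) - 1) := by
        have hpos : (1 : ℤ) ≤ Y.card := by
          have := card_pos.2 ⟨p, hpY⟩
          omega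
        exact mul_le_mul_of_nonneg_right hg3 (by omega)
      have h3 : g * ((Y.card : ℤ) - 1) = g * Y.card - g := by ring
      omega
    · have hg : g = 2 := by omega
      subst hg
      -- the part in `[p, 3 p)`
      set P1 := S.filter (fun x => p ≤ x ∧ x < 2 * p) with hP1
      set P2 := (S.filter (fun x => 2 * p ≤ x ∧ x < 3 * p)).image (fun x => x - p) with hP2
      have hP2c : P2.card = cnt S (2 * p) (3 * p) :=
        card_image_of_injective _ (fun a b h => by simpa using h)
      have hdisj : Disjoint P1 P2 := by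
        rw [disjoint_left]
        intro x hx hx'
        rw [hP2, mem_image] at hx'
        obtain ⟨z, hz, rfl⟩ := hx'
        rw [hP1, mem_filter] at hx
        rw [mem_filter] at hz
        apply hsf (z - p) hx.1 p hpS
        have he : z - p + p = z := by ring
        rw [he]; exact hz.1
      have hq := class_card_le (P1 ∪ P2) p (2 * p) p 2 (by omega)
        (by
          intro x hx
          rw [mem_union] at hx
          rcases hx with hx | hx
          · rw [hP1, mem_filter] at hx; exact hx.2
          · rw [hP2, mem_image] at hx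
            obtain ⟨z, hz, rfl⟩ := hx
            rw [mem_filter] at hz
            omega)
        (by
          intro x hx
          rw [mem_union] at hx
          rcases hx with hx | hx
          · apply hYg
            rw [hP1, mem_filter] at hx
            rw [hY, mem_filter]
            exact ⟨hx.1, hx.2.1, by omega⟩
          · rw [hP2, mem_image] at hx
            obtain ⟨z, hz, rfl⟩ := hx
            rw [mem_filter] at hz
            have h1 : (2 : ℤ) ∣ z - p := by
              apply hYg
              rw [hY, mem_filter]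
              exact ⟨hz.1, by omega, by omega⟩
            obtain ⟨t, ht⟩ := h1
            obtain ⟨r, hr⟩ := hpe
            exact ⟨t - r, by omega⟩) (by omega)
      rw [card_union_of_disjoint hdisj, hP2c] at hq
      have hP1c : P1.card = cnt S p (2 * p) := rfl
      rw [hP1c] at hq
      set P3 := S.filter (fun x => 3 * p ≤ x ∧ x < M - 2 * p + 1) with hP3
      have hP3c : P3.card = cnt S (3 * p) (M - 2 * p + 1) := rfl
      have hr := class_card_le P3 (3 * p) (M - 2 * p + 1) p 2 (by omega)
        (by intro x hx; rw [hP3, mem_filter] at hx; exact hx.2)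
        (by
          intro x hx
          rw [hP3, mem_filter] at hx
          apply hYg
          rw [hY, mem_filter]
          exact ⟨hx.1, by omega, hx.2.2⟩) (by omega)
      rw [hP3c] at hr
      have h5 := cnt_add S p (2 * p) (3 * p) (by omega) (by omega)
      have h6 := cnt_add S p (3 * p) (M - 2 * p + 1) (by omega) (by omega)
      obtain ⟨r, hr2⟩ := hpe
      omega

/-- the lower bound construction -/
theorem lower (p n : ℕ) (hp : 0 < p) (hn : 5 * p ≤ n + 2) :
    ∃ S : Finset ℕ, S ⊆ Finset.Icc 1 n ∧ (∀ x ∈ S, ∀ y ∈ S, x + y ∉ S) ∧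
      IsLeast (S : Set ℕ) p ∧ S.card = 2 * p := by
  classical
  refine ⟨Finset.Ico p (2 * p) ∪ Finset.Ico (4 * p - 1) (5 * p - 1), ?_, ?_, ?_, ?_⟩
  · intro x hx
    rw [mem_union, Finset.mem_Ico, Finset.mem_Ico] at hx
    rw [Finset.mem_Icc]
    omega
  · intro x hx y hy hxy
    rw [mem_union, Finset.mem_Ico, Finset.mem_Ico] at hx hy hxy
    omega
  · constructor
    · rw [Finset.mem_coe, mem_union, Finset.mem_Ico, Finset.mem_Ico]
      omega
    · intro x hx
      rw [Finset.mem_coe, mem_union, Finset.mem_Ico, Finset.mem_Ico] at hx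
      omega
  · rw [card_union_of_disjoint, Nat.card_Ico, Nat.card_Ico]
    · omega
    · rw [disjoint_left]
      intro x hx hx'
      rw [Finset.mem_Ico] at hx hx'
      omega

/-- upper bound for sets of naturals -/
theorem upper_nat (kn : ∀ n : ℕ, 0 < n → KneserFor (ZMod n)) (n p : ℕ) (hp : 0 < p)
    (hpe : Even p) (hn : 3 * n + 1 < 16 * p) (S : Finset ℕ) (hS : S ⊆ Finset.Icc 1 n)
    (hsf : ∀ x ∈ S, ∀ y ∈ S, x + y ∉ S) (hmin : IsLeast (S : Set ℕ) p) : S.card ≤ 2 * p := by
  classical
  have hpS : p ∈ S := hmin.1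
  obtain ⟨M, hM, hMmax⟩ := exists_max_image S (fun x => x) ⟨p, hpS⟩
  have hMn : M ≤ n := by
    have := hS hM
    rw [Finset.mem_Icc] at this
    exact this.2
  set T : Finset ℤ := S.image (fun x : ℕ => (x : ℤ)) with hT
  have hTc : T.card = S.card := card_image_of_injective _ Nat.cast_injective
  have hmem : ∀ x : ℕ, (x : ℤ) ∈ T ↔ x ∈ S := by
    intro x
    rw [hT, mem_image]
    constructor
    · rintro ⟨y, hy, hxy⟩
      have : y = x := by exact_mod_cast hxy
      rw [← this]; exact hy
    · intro h; exact ⟨x, h, rfl⟩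
  have h := upper_main kn T p M (by exact_mod_cast hp) (by exact_mod_cast hpe)
    (by
      intro x hx y hy hxy
      rw [hT, mem_image] at hx hy
      obtain ⟨a, ha, rfl⟩ := hx
      obtain ⟨b, hb, rfl⟩ := hy
      have h2 : ((a + b : ℕ) : ℤ) ∈ T := by push_cast; exact hxy
      rw [hmem] at h2
      exact hsf a ha b hb h2)
    ((hmem p).2 hpS)
    (by
      intro x hx
      rw [hT, mem_image] at hx
      obtain ⟨a, ha, rfl⟩ := hx
      have := hmin.2 ha
      exact_mod_cast this)
    ((hmem M).2 hM)
    (by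
      intro x hx
      rw [hT, mem_image] at hx
      obtain ⟨a, ha, rfl⟩ := hx
      have := hMmax a ha
      exact_mod_cast this)
    (by omega)
  rw [hTc] at h
  omega

end MinEven
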