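import Mathlib
import Pool.Agent.H71M.Final
import Pool.Agent.H71M.Plateau
import Pool.Agent.H96.Kneser

open Finset
open scoped Pointwise

namespace MinEven

theorem kneserFor (n : ℕ) (hn : 0 < n) : KneserFor (ZMod n) := by
  classical
  have : NeZero n := ⟨by omega⟩
  intro A B hA hB
  obtain ⟨H, Hf, h1, h2, h3⟩ := Pool.Agent.H96.Kneser.kneser A B hA hB
  refine ⟨H, Hf, h1, ?_, ?_⟩
  · ext x
    constructor
    · intro hx
      rw [mem_add] at hx
      obtain ⟨y, hy, z, hz, rfl⟩ := hx
      exact h2 z ((h1 z).1 hz) y hy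
    · intro hx
      rw [mem_add]
      exact ⟨x, hx, 0, (h1 0).2 H.zero_mem, add_zero x⟩
  · have h4 : Nat.card H = Hf.card := by
      have h5 : (H : Set (ZMod n)) = (Hf : Set (ZMod n)) := by
        ext x
        rw [SetLike.mem_coe, Finset.mem_coe, h1]
      have h6 : Nat.card H = Nat.card (H : Set (ZMod n)) := rfl
      rw [h6, h5]
      simp
    rw [← h4]
    exact h3

/-- upper bound over the integers on the plateau `M ≤ 6 p - 6` -/
theorem upper_plateau (S : Finset ℤ) (p M : ℤ) (hp : 0 < p) (hpe : Even p)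
    (hsf : ∀ x ∈ S, ∀ y ∈ S, x + y ∉ S) (hpS : p ∈ S) (hmin : ∀ x ∈ S, p ≤ x) (hMS : M ∈ S)
    (hmax : ∀ x ∈ S, x ≤ M) (hM : M + 6 ≤ 6 * p) : (S.card : ℤ) ≤ 2 * p := by
  by_cases hM5 : M < 5 * p
  · exact upper_small S p M hp hsf hpS hmin hmax hM5
  push Not at hM5
  by_contra hcon
  push Not at hcon
  have h : Cfg S p (6 * p - 1 - M) :=
    { hd := by omega
      hdp := by omega
      sf := hsf
      pS := hpS
      MS := by
        have he : 6 * p - 1 - (6 * p - 1 - M) = M := by ring
        rw [he]; exact hMS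
      lo := hmin
      hi := by
        intro x hx
        have := hmax x hx
        omega
      big := by omega }
  exact no_cfg h hpe

/-- upper bound for sets of naturals -/
theorem upper_final (n p : ℕ) (hp : 0 < p) (hpe : Even p)
    (hn : n + 6 ≤ 6 * p ∨ 3 * n + 1 < 16 * p) (S : Finset ℕ) (hS : S ⊆ Finset.Icc 1 n)
    (hsf : ∀ x ∈ S, ∀ y ∈ S, x + y ∉ S) (hmin : IsLeast (S : Set ℕ) p) : S.card ≤ 2 * p := by
  classical
  rcases hn with hn | hn
  swap
  · exact upper_nat (fun m hm => kneserFor m hm) n p hp hpe hn S hS hsf hmin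
  have hpS : p ∈ S := hmin.1
  obtain ⟨M, hM, hMmax⟩ := exists_max_image S (fun x => x) ⟨p, hpS⟩
  have hMn : M ≤ n := by
    have := hS hM
    rw [Finset.mem_Icc] at this
    exact this.2
  set T : Finset ℤ := S.image (fun x : ℕ => (x : ℤ)) with hT
  have hTc : T.card = S.card := card_image_of_injective _ Nat.cast_injective
  have hmem : ∀ x : ℕ, (x : ℤ) ∈ T ↔ x ∈ S := by
    intro x
    rw [hT, mem_image]
    constructor
    · rintro ⟨y, hy, hxy⟩
      have : y = x := by exact_mod_cast hxy
      rw [← this]; exact hy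
    · intro h; exact ⟨x, h, rfl⟩
  have h := upper_plateau T p M (by exact_mod_cast hp) (by exact_mod_cast hpe)
    (by
      intro x hx y hy hxy
      rw [hT, mem_image] at hx hy
      obtain ⟨a, ha, rfl⟩ := hx
      obtain ⟨b, hb, rfl⟩ := hy
      have h2 : ((a + b : ℕ) : ℤ) ∈ T := by push_cast; exact hxy
      rw [hmem] at h2
      exact hsf a ha b hb h2)
    ((hmem p).2 hpS)
    (by
      intro x hx
      rw [hT, mem_image] at hx
      obtain ⟨a, ha, rfl⟩ := hx
      have := hmin.2 ha
      exact_mod_cast this)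
    ((hmem M).2 hM)
    (by
      intro x hx
      rw [hT, mem_image] at hx
      obtain ⟨a, ha, rfl⟩ := hx
      have := hMmax a ha
      exact_mod_cast this)
    (by omega)
  rw [hTc] at h
  omega

end MinEven
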